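import Pool.Agent.H668.Str.Core

/-!
# Counting cells of sumsets
-/

set_option autoImplicit false

open Finset Set
open scoped Pointwise

namespace Pool.Agent.H668.Fib
open Pool.Agent.W46.KK Pool.Agent.H668.Str

variable {d : ℕ}

/-- sums of two cells -/
theorem dc_add_le {δ : ℝ} (hδ : 0 < δ) {D E : Set (Fin d → ℝ)} (hD : Bornology.IsBounded D)
    (hE : Bornology.IsBounded E) :
    ((dc δ D + dc δ E).card : ℝ) ≤ 2 ^ d * ((cells δ (D + E)).ncard : ℝ) := by
  classical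
  have hDD : Bornology.IsBounded (D + E) := hD.add hE
  have hsub : dc δ D + dc δ E ⊆ ((dc δ (D + E)) ×ˢ (Fintype.piFinset fun _ : Fin d =>
      Finset.Icc (0 : ℤ) 1)).image fun q => q.1 - q.2 := by
    intro z hz
    rw [Finset.mem_add] at hz
    obtain ⟨a, ha, b, hb, rfl⟩ := hz
    rw [mem_dc hδ hD] at ha
    rw [mem_dc hδ hE] at hb
    obtain ⟨x, hx, rfl⟩ := ha
    obtain ⟨y, hy, rfl⟩ := hb
    rw [Finset.mem_image]
    refine ⟨(fl δ (x + y), fl δ (x + y) - (fl δ x + fl δ y)), ?_, by simp⟩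
    rw [Finset.mem_product]
    refine ⟨?_, ?_⟩
    · rw [mem_dc hδ hDD]
      exact ⟨x + y, Set.add_mem_add hx hy, rfl⟩
    · rw [Fintype.mem_piFinset]
      intro i
      simp only [Pi.sub_apply, Pi.add_apply, fl, Finset.mem_Icc]
      have e : (x i + y i) / δ = x i / δ + y i / δ := add_div _ _ _
      rw [e]
      have h1 := Int.le_floor_add (x i / δ) (y i / δ)
      have h2 := Int.le_floor_add_floor (x i / δ) (y i / δ)
      constructor <;> omega
  have h1 : ((Fintype.piFinset fun _ : Fin d => Finset.Icc (0 : ℤ) 1).card : ℝ) = 2 ^ d := by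
    rw [Fintype.card_piFinset, Finset.prod_const, Finset.card_univ, Fintype.card_fin]
    simp
  have h2 := (Finset.card_le_card hsub).trans Finset.card_image_le
  calc ((dc δ D + dc δ E).card : ℝ)
      ≤ (((dc δ (D + E)) ×ˢ (Fintype.piFinset fun _ : Fin d => Finset.Icc (0 : ℤ) 1)).card : ℝ) :=
        Nat.cast_le.2 h2
    _ = _ := by rw [Finset.card_product, Nat.cast_mul, h1, card_dc hδ hDD, mul_comm]

theorem dc_nonempty {δ : ℝ} (hδ : 0 < δ) {D : Set (Fin d → ℝ)} (hD : Bornology.IsBounded D)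
    (h : D.Nonempty) : (dc δ D).Nonempty := by
  obtain ⟨x, hx⟩ := h
  exact ⟨fl δ x, (mem_dc hδ hD _).2 ⟨x, hx, rfl⟩⟩

/-- counting the cells of `X` with a map which is not contracting and a finite set near the image -/
theorem cells_le_of_map {δ : ℝ} (hδ : 0 < δ) (X : Set (Fin d → ℝ))
    (Λ : (Fin d → ℝ) → (Fin d → ℝ)) (lam C : ℝ) (hlam : 0 ≤ lam) (hC : 0 ≤ C)
    (hΛ : ∀ x y, ∀ B : ℝ, (∀ i, |Λ x i - Λ y i| ≤ B) → ∀ i, |x i - y i| ≤ lam * B)
    (W : Finset (Fin d → ℤ)) (hW : ∀ x ∈ X, ∃ w ∈ W, ∀ i, |Λ x i - δ * w i| ≤ C * δ) :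
    ((cells δ X).ncard : ℝ) ≤ (2 * (2 * C * lam + 2) + 1) ^ d * (W.card : ℝ) := by
  classical
  set o : ℤ := ⌈2 * C * lam⌉ + 1 with ho
  have ho0 : 0 ≤ o := by
    have : 0 ≤ ⌈2 * C * lam⌉ := Int.ceil_nonneg (by positivity)
    omega
  have hex : ∀ w : Fin d → ℤ, ∃ g : Fin d → ℝ, (∃ x ∈ X, ∀ i, |Λ x i - δ * w i| ≤ C * δ) →
      g ∈ X ∧ ∀ i, |Λ g i - δ * w i| ≤ C * δ := by
    intro w
    by_cases h : ∃ x ∈ X, ∀ i, |Λ x i - δ * w i| ≤ C * δ
    · obtain ⟨x, hx, hxw⟩ := h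
      exact ⟨x, fun _ => ⟨hx, hxw⟩⟩
    · exact ⟨0, fun h' => absurd h' h⟩
  choose g hg using hex
  have hsub : cells δ X ⊆ (((W ×ˢ box d o).image fun q => fl δ (g q.1) + q.2 :
      Finset (Fin d → ℤ)) : Set (Fin d → ℤ)) := by
    rintro _ ⟨x, hx, rfl⟩
    obtain ⟨w, hw, hxw⟩ := hW x hx
    obtain ⟨hg1, hg2⟩ := hg w ⟨x, hx, hxw⟩
    rw [Finset.mem_coe, Finset.mem_image]
    refine ⟨(w, fl δ x - fl δ (g w)), ?_, by simp⟩
    rw [Finset.mem_product]
    refine ⟨hw, ?_⟩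
    unfold Pool.Agent.H668.Str.box
    rw [Fintype.mem_piFinset]
    intro i
    have h1 : ∀ i, |Λ x i - Λ (g w) i| ≤ 2 * C * δ := by
      intro i
      have h2 := abs_le.1 (hxw i)
      have h3 := abs_le.1 (hg2 i)
      rw [abs_le]
      constructor <;> linarith [h2.1, h2.2, h3.1, h3.2]
    have h4 := abs_le.1 (hΛ x (g w) _ h1 i)
    have h5 : x i / δ - g w i / δ ≤ 2 * C * lam := by
      rw [← sub_div, div_le_iff₀ hδ]
      linarith [h4.2, mul_comm lam (2 * C * δ), mul_assoc (2 * C) lam δ, mul_assoc (2*C) δ lam,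
        mul_comm δ lam]
    have h6 : -(2 * C * lam) ≤ x i / δ - g w i / δ := by
      rw [← sub_div, le_div_iff₀ hδ]
      linarith [h4.1, mul_comm lam (2 * C * δ), mul_assoc (2 * C) lam δ, mul_assoc (2*C) δ lam,
        mul_comm δ lam]
    have h7 := Int.le_ceil (2 * C * lam)
    have a1 := Int.floor_le (x i / δ)
    have a2 := Int.lt_floor_add_one (x i / δ)
    have b1 := Int.floor_le (g w i / δ)
    have b2 := Int.lt_floor_add_one (g w i / δ)
    show fl δ x i - fl δ (g w) i ∈ Finset.Icc (-o) o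
    rw [Finset.mem_Icc]
    unfold fl
    constructor
    · have : (-(o : ℤ) : ℝ) < ((⌊x i / δ⌋ - ⌊g w i / δ⌋ + 1 : ℤ) : ℝ) := by
        rw [ho]; push_cast; linarith
      have h8 : -o < ⌊x i / δ⌋ - ⌊g w i / δ⌋ + 1 := by exact_mod_cast this
      omega
    · have : ((⌊x i / δ⌋ - ⌊g w i / δ⌋ : ℤ) : ℝ) < ((o + 1 : ℤ) : ℝ) := by
        rw [ho]; push_cast; linarith
      have h8 : ⌊x i / δ⌋ - ⌊g w i / δ⌋ < o + 1 := by exact_mod_cast this
      omega
  have h1 : (cells δ X).ncard ≤ (W ×ˢ box d o).card := by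
    refine (Set.ncard_le_ncard hsub (Finset.finite_toSet _)).trans ?_
    rw [Set.ncard_coe_finset]
    exact Finset.card_image_le
  have h2 : ((box d o).card : ℝ) ≤ (2 * (2 * C * lam + 2) + 1) ^ d := by
    rw [card_box d ho0]
    apply pow_le_pow_left₀
    · exact_mod_cast (by omega : (0 : ℤ) ≤ 2 * o + 1)
    · have := Int.ceil_lt_add_one (2 * C * lam)
      rw [ho]; push_cast; linarith
  calc ((cells δ X).ncard : ℝ) ≤ ((W ×ˢ box d o).card : ℝ) := Nat.cast_le.2 h1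
    _ = (box d o).card * (W.card : ℝ) := by rw [Finset.card_product, Nat.cast_mul, mul_comm]
    _ ≤ _ := by gcongr

/-- few cells in a ball -/
theorem cells_ball_le {δ : ℝ} (hδ : 0 < δ) (hδ1 : δ ≤ 1) {X : Set (Fin d → ℝ)} {R : ℝ}
    (hR : 0 ≤ R) (hX : ∀ x ∈ X, ∀ i, |x i| ≤ R) :
    ((cells δ X).ncard : ℝ) ≤ (2 * R + 5) ^ d * (δ⁻¹) ^ d := by
  classical
  set o : ℤ := ⌈R / δ⌉ + 1 with ho
  have ho0 : 0 ≤ o := by
    have : 0 ≤ ⌈R / δ⌉ := Int.ceil_nonneg (by positivity)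
    omega
  have hsub : cells δ X ⊆ ((box d o : Finset (Fin d → ℤ)) : Set (Fin d → ℤ)) := by
    rintro _ ⟨x, hx, rfl⟩
    rw [Finset.mem_coe]
    unfold Pool.Agent.H668.Str.box
    rw [Fintype.mem_piFinset]
    intro i
    have h2 := abs_le.1 (hX x hx i)
    have h3 : x i / δ ≤ R / δ := div_le_div_of_nonneg_right h2.2 hδ.le
    have h4 : -(R / δ) ≤ x i / δ := by
      rw [← neg_div]; exact div_le_div_of_nonneg_right h2.1 hδ.le
    have h5 := Int.le_ceil (R / δ)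
    have h6 := Int.floor_le (x i / δ)
    have h7 := Int.lt_floor_add_one (x i / δ)
    rw [Finset.mem_Icc]
    unfold fl
    constructor
    · have h8 : ((-o : ℤ) : ℝ) < ((⌊x i / δ⌋ : ℤ) : ℝ) := by rw [ho]; push_cast; linarith
      exact (by exact_mod_cast h8.le)
    · have h8 : ((⌊x i / δ⌋ : ℤ) : ℝ) ≤ ((o : ℤ) : ℝ) := by rw [ho]; push_cast; linarith
      exact_mod_cast h8
  have h1 : (cells δ X).ncard ≤ (box d o).card := by
    refine (Set.ncard_le_ncard hsub (Finset.finite_toSet _)).trans ?_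
    rw [Set.ncard_coe_finset]
  calc ((cells δ X).ncard : ℝ) ≤ ((box d o).card : ℝ) := Nat.cast_le.2 h1
    _ = ((2 * o + 1 : ℤ) : ℝ) ^ d := card_box d ho0
    _ ≤ ((2 * R + 5) * δ⁻¹) ^ d := by
        apply pow_le_pow_left₀
        · exact_mod_cast (by omega : (0 : ℤ) ≤ 2 * o + 1)
        · have h2 := Int.ceil_lt_add_one (R / δ)
          have h3 : 1 ≤ δ⁻¹ := (one_le_inv₀ hδ).2 hδ1
          have h4 : R / δ = R * δ⁻¹ := div_eq_mul_inv _ _
          rw [ho]; push_cast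
          nlinarith
    _ = _ := by rw [mul_pow]

/-- sizes of the partial sums of a sequence of sets -/
noncomputable def bn (δ : ℝ) (X : ℕ → Set (Fin d → ℝ)) (j : ℕ) : ℝ :=
  ((cells δ (∑ l ∈ Finset.range j, X l)).ncard : ℝ)

theorem bounded_sum (X : ℕ → Set (Fin d → ℝ)) (hb : ∀ l, Bornology.IsBounded (X l)) (j : ℕ) :
    Bornology.IsBounded (∑ l ∈ Finset.range j, X l) := by
  induction j with
  | zero =>
    rw [Finset.sum_range_zero]
    exact Bornology.isBounded_singleton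
  | succ n ih =>
    rw [Finset.sum_range_succ]
    exact ih.add (hb n)

theorem nonempty_sum (X : ℕ → Set (Fin d → ℝ)) (hne : ∀ l, (X l).Nonempty) (j : ℕ) :
    (∑ l ∈ Finset.range j, X l).Nonempty := by
  induction j with
  | zero =>
    rw [Finset.sum_range_zero]
    exact Set.singleton_nonempty _
  | succ n ih =>
    rw [Finset.sum_range_succ]
    exact ih.add (hne n)

theorem bn_succ {δ : ℝ} (hδ : 0 < δ) (X : ℕ → Set (Fin d → ℝ))
    (hb : ∀ l, Bornology.IsBounded (X l)) (j : ℕ) :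
    ((dc δ (∑ l ∈ Finset.range j, X l) + dc δ (X j)).card : ℝ) ≤ 2 ^ d * bn δ X (j + 1) := by
  have h := dc_add_le hδ (bounded_sum X hb j) (hb j)
  unfold bn
  rwa [Finset.sum_range_succ]

theorem bn_mono {δ : ℝ} (hδ : 0 < δ) (X : ℕ → Set (Fin d → ℝ))
    (hb : ∀ l, Bornology.IsBounded (X l)) (hne : ∀ l, (X l).Nonempty) (j : ℕ) :
    bn δ X j ≤ 2 ^ d * bn δ X (j + 1) := by
  refine le_trans ?_ (bn_succ hδ X hb j)
  unfold bn
  rw [← card_dc hδ (bounded_sum X hb j)]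
  exact_mod_cast Finset.card_le_card_add_right (dc_nonempty hδ (hb j) (hne j))

theorem bn_le {δ : ℝ} (hδ : 0 < δ) (X : ℕ → Set (Fin d → ℝ))
    (hb : ∀ l, Bornology.IsBounded (X l)) (hne : ∀ l, (X l).Nonempty) (j i : ℕ) :
    bn δ X j ≤ (2 ^ d) ^ i * bn δ X (j + i) := by
  induction i with
  | zero => simp
  | succ n ih =>
    refine ih.trans ?_
    rw [pow_succ, mul_assoc]
    apply mul_le_mul_of_nonneg_left _ (by positivity)
    exact bn_mono hδ X hb hne (j + n)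

theorem bn_zero {δ : ℝ} (X : ℕ → Set (Fin d → ℝ)) : bn δ X 0 = 1 := by
  unfold bn cells
  rw [Finset.sum_range_zero]
  have : (0 : Set (Fin d → ℝ)) = {0} := rfl
  rw [this, Set.image_singleton, Set.ncard_singleton, Nat.cast_one]

/-- some step is small -/
theorem exists_step {δ : ℝ} (hδ : 0 < δ) (X : ℕ → Set (Fin d → ℝ))
    (hb : ∀ l, Bornology.IsBounded (X l)) (k : ℕ) (M : ℝ) (hM : 0 ≤ M)
    (hbig : (2 ^ d) ^ k * bn δ X k < M ^ k) :
    ∃ j < k, ((dc δ (∑ l ∈ Finset.range j, X l) + dc δ (X j)).card : ℝ) ≤ M * bn δ X j := by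
  by_contra hcon
  push Not at hcon
  have h : ∀ j ≤ k, M ^ j ≤ (2 ^ d) ^ j * bn δ X j := by
    intro j hj
    induction j with
    | zero => rw [pow_zero, pow_zero, bn_zero, one_mul]
    | succ n ih =>
      have h1 := ih (by omega)
      have h2 := hcon n (by omega)
      have h3 := bn_succ hδ X hb n
      calc M ^ (n + 1) = M ^ n * M := pow_succ _ _
        _ ≤ ((2 ^ d) ^ n * bn δ X n) * M := by gcongr
        _ = (2 ^ d) ^ n * (M * bn δ X n) := by ring
        _ ≤ (2 ^ d) ^ n * (2 ^ d * bn δ X (n + 1)) := by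
            apply mul_le_mul_of_nonneg_left _ (by positivity)
            exact (h2.trans_le h3).le
        _ = _ := by rw [pow_succ]; ring
  exact absurd hbig (not_lt.2 (h k le_rfl))

/-- Plünnecke: all the multiples of one of the summands are not much larger than the whole sum -/
theorem exists_multiples {δ : ℝ} (hδ : 0 < δ) (X : ℕ → Set (Fin d → ℝ))
    (hb : ∀ l, Bornology.IsBounded (X l)) (hne : ∀ l, (X l).Nonempty) (k : ℕ) (M : ℝ) (hM : 0 ≤ M)
    (hbig : (2 ^ d) ^ k * bn δ X k < M ^ k) :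
    ∃ j < k, ∀ n : ℕ, ((n • dc δ (X j)).card : ℝ) ≤ M ^ n * (2 ^ d) ^ k * bn δ X k := by
  classical
  obtain ⟨j, hj, h⟩ := exists_step hδ X hb k M hM hbig
  refine ⟨j, hj, fun n => ?_⟩
  set B := dc δ (∑ l ∈ Finset.range j, X l) with hB
  have hBne : B.Nonempty := dc_nonempty hδ (bounded_sum X hb j) (nonempty_sum X hne j)
  have hBc : (B.card : ℝ) = bn δ X j := by
    unfold bn
    rw [hB, card_dc hδ (bounded_sum X hb j)]
  have hBpos : (0 : ℝ) < B.card := by exact_mod_cast hBne.card_pos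
  have h1 := Finset.pluennecke_ruzsa_inequality_nsmul_add hBne (dc δ (X j)) n
  have h2 : (((n • dc δ (X j)).card : ℚ≥0) : ℝ) ≤
      (((((B + dc δ (X j)).card : ℚ≥0) / (B.card : ℚ≥0)) ^ n * (B.card : ℚ≥0) : ℚ≥0) : ℝ) := by
    exact_mod_cast h1
  push_cast at h2
  have h3 : ((B + dc δ (X j)).card : ℝ) / B.card ≤ M := by
    rw [div_le_iff₀ hBpos, hBc]
    exact h
  have h4 : bn δ X j ≤ (2 ^ d) ^ k * bn δ X k := by
    have h5 := bn_le hδ X hb hne j (k - j)
    rw [show j + (k - j) = k by omega] at h5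
    refine h5.trans ?_
    apply mul_le_mul_of_nonneg_right _ (by unfold bn; exact Nat.cast_nonneg _)
    apply pow_le_pow_right₀
    · exact one_le_pow₀ one_le_two
    · omega
  calc ((n • dc δ (X j)).card : ℝ)
      ≤ (((B + dc δ (X j)).card : ℝ) / B.card) ^ n * B.card := h2
    _ ≤ M ^ n * B.card := by gcongr
    _ ≤ M ^ n * ((2 ^ d) ^ k * bn δ X k) := by
        rw [hBc]; gcongr
    _ = _ := by ring

end Pool.Agent.H668.Fib
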