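import Pool.Agent.H668.Fib.Scale

/-!
# Fibre sums of Kakeya sets: dimension
-/

set_option autoImplicit false

open Finset Set MeasureTheory Filter Topology
open scoped Pointwise ENNReal

namespace Pool.Agent.H668.Fib
open Pool.Agent.W46.KK Pool.Agent.H668.Str

variable {d : ℕ}

/-- The set of all `(t, ∑ i, L i (x i))` with `(t, x i) ∈ K` for all `i`. -/
def fibSum {k : ℕ} (L : Fin k → (Fin d → ℝ) ≃ₗ[ℝ] (Fin d → ℝ))
    (K : Set (EuclideanSpace ℝ (Fin (d + 1)))) : Set (EuclideanSpace ℝ (Fin (d + 1))) :=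
  {p | ∃ x : Fin k → Fin d → ℝ, (∀ i, x i ∈ sl K (p 0)) ∧
    ∀ j : Fin d, p j.succ = ∑ i, L i (x i) j}

theorem sl_norm {K : Set (EuclideanSpace ℝ (Fin (d + 1)))} {R : ℝ} (hR : 0 ≤ R)
    (hK : K ⊆ Metric.closedBall 0 R) {t : ℝ} {x : Fin d → ℝ} (hx : x ∈ sl K t) : ‖x‖ ≤ R := by
  rw [pi_norm_le_iff_of_nonneg hR]
  intro i
  have h1 := hK hx
  rw [mem_closedBall_zero_iff] at h1
  have h2 := PiLp.norm_apply_le (WithLp.toLp 2 (Fin.cons t x : Fin (d + 1) → ℝ) :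
    EuclideanSpace ℝ (Fin (d + 1))) (Fin.succ i)
  simp only [Fin.cons_succ] at h2
  exact h2.trans h1

theorem fib_bounded {k : ℕ} (hk : 0 < k) (L : Fin k → (Fin d → ℝ) ≃ₗ[ℝ] (Fin d → ℝ))
    {K : Set (EuclideanSpace ℝ (Fin (d + 1)))} (hK : Bornology.IsBounded K) :
    Bornology.IsBounded (fibSum L K) := by
  obtain ⟨R, hR⟩ := hK.subset_closedBall 0
  have hR' : K ⊆ Metric.closedBall 0 |R| := hR.trans (Metric.closedBall_subset_closedBall (le_abs_self R))
  choose C hC0 hC using fun i => equiv_norm (L i)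
  have h1 : Bornology.IsBounded ((WithLp.toLp 2 : (Fin (d + 1) → ℝ) → _) ''
      (Metric.closedBall (0 : Fin (d + 1) → ℝ) (|R| + ∑ i, C i * |R|))) := by
    have h2 := (PiLp.lipschitzWith_toLp 2 (fun _ : Fin (d + 1) => ℝ))
    exact h2.isBounded_image Metric.isBounded_closedBall
  refine h1.subset ?_
  intro p hp
  obtain ⟨x, hx, hp⟩ := hp
  refine ⟨fun i => p i, ?_, rfl⟩
  rw [mem_closedBall_zero_iff]
  have hnn : 0 ≤ ∑ i, C i * |R| := Finset.sum_nonneg fun i _ => mul_nonneg (hC0 i) (abs_nonneg R)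
  rw [pi_norm_le_iff_of_nonneg (by positivity)]
  intro i
  refine Fin.cases ?_ (fun i => ?_) i
  · have h3 := hR' (hx ⟨0, hk⟩)
    rw [mem_closedBall_zero_iff] at h3
    have h4 := PiLp.norm_apply_le (WithLp.toLp 2 (Fin.cons (p 0) (x ⟨0, hk⟩) :
      Fin (d + 1) → ℝ) : EuclideanSpace ℝ (Fin (d + 1))) 0
    simp only [Fin.cons_zero] at h4
    linarith
  · rw [hp i]
    have h5 : ‖∑ l, L l (x l) i‖ ≤ ∑ l, C l * |R| := by
      refine (norm_sum_le _ _).trans (Finset.sum_le_sum fun l _ => ?_)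
      have h6 := norm_le_pi_norm (L l (x l)) i
      refine h6.trans ((hC l (x l)).trans ?_)
      exact mul_le_mul_of_nonneg_left (sl_norm (abs_nonneg R) hR' (hx l)) (hC0 l)
    linarith [abs_nonneg R]

theorem ev_lt (C e : ℝ) (he : 0 < e) : ∀ᶠ δ : ℝ in 𝓝[>] (0 : ℝ), C < δ ^ (-e) := by
  have h1 : Tendsto (fun δ : ℝ => (δ⁻¹) ^ e) (𝓝[>] 0) atTop :=
    (tendsto_rpow_atTop he).comp tendsto_inv_nhdsGT_zero
  filter_upwards [h1.eventually (eventually_gt_atTop C), eventually_mem_nhdsWithin] with δ h2 h3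
  have h4 : (0 : ℝ) < δ := h3
  rwa [Real.inv_rpow h4.le, ← Real.rpow_neg h4.le] at h2

/-- the bound at one scale -/
theorem one_scale (d : ℕ) (ε : ℝ) (hε : 0 < ε) : ∃ N : ℕ, 0 < N ∧
    ∀ K : Set (EuclideanSpace ℝ (Fin (d + 1))), IsCompact K → HasSegments K →
      ∀ k : ℕ, N ≤ k → ∀ L : Fin k → (Fin d → ℝ) ≃ₗ[ℝ] (Fin d → ℝ), ∃ c : ℝ, 0 < c ∧
        ∀ᶠ δ : ℝ in 𝓝[>] (0 : ℝ), ENNReal.ofReal (c * δ ^ (ε / 2)) ≤
          volume (Metric.thickening ((d + 1) * δ) (fibSum L K)) := by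
  classical
  obtain ⟨k₀, hk₀⟩ := exists_nat_gt (4 * (d : ℝ) / ε)
  obtain ⟨S, hS, hSk⟩ := slopes (k₀ + 1)
  have hne : S.Nonempty := by rw [← Finset.card_pos, hSk]; omega
  obtain ⟨m, κ, μ, hκ, hμ, hvol⟩ := vol_loc S hS hne d
  have hd0 : (0 : ℝ) ≤ d := Nat.cast_nonneg d
  have hm0 : (0 : ℝ) ≤ m := Nat.cast_nonneg m
  set γ : ℝ := ε / (4 * (m + 1)) with hγ
  have hγpos : 0 < γ := by positivity
  set B : ℕ := ⌈(2 * (d : ℝ) + 2) / γ⌉₊ with hB
  set I : ℕ := ⌈(B : ℝ) * μ / κ⌉₊ + 1 with hI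
  have hBI : (B : ℝ) * μ ≤ κ * (I : ℝ) := by
    have h1 := Nat.le_ceil ((B : ℝ) * μ / κ)
    rw [div_le_iff₀ hκ] at h1
    rw [hI]; push_cast
    nlinarith
  set γ' : ℝ := γ / (2 * 2 ^ I) with hγ'
  have hγ'pos : 0 < γ' := by positivity
  set N : ℕ := ⌈((d : ℝ) + 1) / γ'⌉₊ + 1 with hN
  have hd : (d : ℝ) / (S.card + 1) ≤ ε / 4 := by
    rw [hSk, div_le_iff₀ (by positivity)]
    rw [div_lt_iff₀ hε] at hk₀
    push_cast
    nlinarith
  have hexp : γ * m + (d : ℝ) / (S.card + 1) ≤ ε / 2 := by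
    have h2 : γ * m ≤ ε / 4 := by
      rw [hγ, div_mul_eq_mul_div, div_le_div_iff₀ (by positivity) (by norm_num)]
      nlinarith
    linarith
  refine ⟨N, by omega, ?_⟩
  intro K hK hKs k hk L
  have hKb := hK.isBounded
  obtain ⟨R₀, hR₀⟩ := hKb.subset_closedBall 0
  set R : ℝ := |R₀| with hR
  have hR0 : 0 ≤ R := abs_nonneg _
  have hKR : K ⊆ Metric.closedBall 0 R :=
    hR₀.trans (Metric.closedBall_subset_closedBall (le_abs_self _))
  obtain ⟨c, hc, hvolK⟩ := hvol K hKb hKs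
  refine ⟨c, hc, ?_⟩
  have hk0 : 0 < k := by omega
  set F := fibSum L K with hF
  have hFb : Bornology.IsBounded F := fib_bounded hk0 L hKb
  set Lx : ℕ → (Fin d → ℝ) ≃ₗ[ℝ] (Fin d → ℝ) := fun l =>
    if h : l < k then L ⟨l, h⟩ else LinearEquiv.refl ℝ _ with hLx
  choose lx hlx0 hlx using fun l => equiv_bound (Lx l)
  choose Cx hCx0 hCx using fun l => equiv_norm (Lx l)
  set lam : ℝ := ∑ l ∈ Finset.range k, lx l with hlam
  have hlam0 : 0 ≤ lam := Finset.sum_nonneg fun l _ => hlx0 l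
  set Rk : ℝ := ∑ l ∈ Finset.range k, Cx l * R with hRk
  have hRk0 : 0 ≤ Rk := Finset.sum_nonneg fun l _ => mul_nonneg (hCx0 l) hR0
  set C₂ : ℝ := (2 * (2 * 2 ^ I * lam + 2) + 1) ^ d * (2 ^ d) ^ k with hC₂
  set Cb : ℝ := (2 ^ d) ^ k * (2 * Rk + 5) ^ d with hCb
  -- the sums of the images of a slice
  have hbn : ∀ (δ : ℝ), 0 < δ → δ ≤ 1 → ∀ t : ℝ,
      bn δ (fun l => Lx l '' sl K t) k ≤ (2 * Rk + 5) ^ d * (δ⁻¹) ^ d := by
    intro δ hδ hδ1 t
    apply cells_ball_le hδ hδ1 hRk0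
    intro x hx i
    obtain ⟨g, hg, rfl⟩ := (Set.mem_finsetSum _ _ _).1 hx
    rw [Finset.sum_apply, hRk]
    refine (Finset.abs_sum_le_sum_abs _ _).trans (Finset.sum_le_sum fun l hl => ?_)
    obtain ⟨y, hy, hyg⟩ := hg hl
    rw [← hyg]
    have h1 := norm_le_pi_norm (Lx l y) i
    rw [Real.norm_eq_abs] at h1
    exact h1.trans ((hCx l y).trans (mul_le_mul_of_nonneg_left (sl_norm hR0 hKR hy) (hCx0 l)))
  have hsubF : ∀ t : ℝ, (∑ l ∈ Finset.range k, (fun l => Lx l '' sl K t) l) ⊆ sl F t := by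
    intro t x hx
    obtain ⟨g, hg, rfl⟩ := (Set.mem_finsetSum _ _ _).1 hx
    have h1 : ∀ i : Fin k, ∃ y ∈ sl K t, L i y = g i := by
      intro i
      obtain ⟨y, hy, hyg⟩ := hg (Finset.mem_range.2 i.2)
      refine ⟨y, hy, ?_⟩
      rw [← hyg, hLx]
      dsimp only
      rw [dif_pos i.2]
    choose y hy hyg using h1
    refine ⟨y, fun i => hy i, ?_⟩
    intro j
    simp only [Fin.cons_succ]
    rw [Finset.sum_apply, Finset.sum_range]
    exact Finset.sum_congr rfl fun i _ => by rw [hyg i]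
  have ev0 : ∀ᶠ δ : ℝ in 𝓝[>] (0 : ℝ), 0 < δ ∧ δ < 1 := Ioo_mem_nhdsGT one_pos
  filter_upwards [ev0, ev_lt Cb 1 one_pos, ev_lt ((2 * R + 2) ^ d) 1 one_pos,
    ev_lt (39 ^ d) (γ / 2) (by positivity), ev_lt C₂ (γ / 2) (by positivity)] with
    δ hδ01 hev1 hev2 hev3 hev4
  obtain ⟨hδ, hδlt⟩ := hδ01
  have hδ1 : δ ≤ 1 := hδlt.le
  obtain ⟨a, hvola⟩ := hvolK δ hδ
  -- the constants of the scale
  set M' : ℝ := δ ^ (-(γ / 2)) with hM'
  have hM'1 : 1 ≤ M' := Real.one_le_rpow_of_pos_of_le_one_of_nonpos hδ hδ1 (by linarith)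
  set M : ℝ := δ ^ (-γ') with hM
  have hM1 : 1 ≤ M := Real.one_le_rpow_of_pos_of_le_one_of_nonpos hδ hδ1 (by linarith)
  set Mt : ℝ := δ ^ (-γ) with hMt
  have hMt1 : 1 ≤ Mt := Real.one_le_rpow_of_pos_of_le_one_of_nonpos hδ hδ1 (by linarith)
  have hMI : M ^ (2 ^ I) = M' := by
    rw [hM, hM', ← Real.rpow_natCast, ← Real.rpow_mul hδ.le]
    congr 1
    rw [hγ']
    push_cast
    field_simp
  have hMM : M' * M' = Mt := by
    rw [hM', hMt, ← Real.rpow_add hδ]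
    congr 1
    ring
  have hbig1 : (2 * R + 2) ^ d < M' ^ (B + 1) * δ ^ d := by
    refine hev2.trans_le ?_
    have h1 : M' ^ (B + 1) * δ ^ d = δ ^ (-(γ / 2) * ((B : ℝ) + 1) + d) := by
      rw [hM', ← Real.rpow_natCast, ← Real.rpow_mul hδ.le, ← Real.rpow_natCast δ d,
        ← Real.rpow_add hδ]
      push_cast
      rfl
    rw [h1]
    apply Real.rpow_le_rpow_of_exponent_ge hδ hδ1
    have h2 := Nat.le_ceil ((2 * (d : ℝ) + 2) / γ)
    rw [div_le_iff₀ hγpos] at h2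
    rw [← hB] at h2
    nlinarith
  have hbig2 : ∀ t : ℝ, (2 ^ d) ^ k * bn δ (fun l => Lx l '' sl K t) k < M ^ k := by
    intro t
    have h1 : (2 ^ d) ^ k * bn δ (fun l => Lx l '' sl K t) k ≤ Cb * (δ⁻¹) ^ d := by
      rw [hCb, mul_assoc]
      exact mul_le_mul_of_nonneg_left (hbn δ hδ hδ1 t) (by positivity)
    refine h1.trans_lt ?_
    have h2 : (δ⁻¹) ^ d = δ ^ (-(d : ℝ)) := by
      rw [inv_pow, Real.rpow_neg hδ.le, Real.rpow_natCast]
    have h3 : (0 : ℝ) < (δ⁻¹) ^ d := by positivity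
    calc Cb * (δ⁻¹) ^ d < δ ^ (-(1 : ℝ)) * (δ⁻¹) ^ d := by gcongr
      _ = δ ^ (-(1 : ℝ) + -(d : ℝ)) := by rw [h2, ← Real.rpow_add hδ]
      _ ≤ δ ^ (-γ' * (k : ℝ)) := by
          apply Real.rpow_le_rpow_of_exponent_ge hδ hδ1
          have h4 := Nat.le_ceil (((d : ℝ) + 1) / γ')
          rw [div_le_iff₀ hγ'pos] at h4
          have h5 : (⌈((d : ℝ) + 1) / γ'⌉₊ : ℝ) ≤ k := by
            have : ⌈((d : ℝ) + 1) / γ'⌉₊ ≤ k := by omega
            exact_mod_cast this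
          nlinarith
      _ = M ^ k := by rw [hM, ← Real.rpow_natCast, ← Real.rpow_mul hδ.le]
  obtain ⟨i, hi, Z, hZ, hgood⟩ := exists_good hK hR0 hKR hδ hδ1 M' hM'1 B I (by omega) a μ κ hκ
    hbig1 hBI
  have key := hvola F hFb Mt hMt1 Z hZ (by
    intro t ht htZ
    by_cases hne' : (sl K t).Nonempty
    · refine ⟨sl (mid^[i] K) t, sl_bounded (iter_compact hK i).isBounded t, ?_, ?_, ?_⟩
      · exact fun x hx => subset_iter K i hx
      · -- doubling
        have h1 := double_le hδ (C := mid^[i] K)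
          (mid_compact (iter_compact hK i)).isBounded t
        rw [← Function.iterate_succ_apply' mid i K] at h1
        have h2 := cells_le_G hδ (iter_compact hK (i + 1)).isBounded t
        have h3 := G_le_cells hδ (iter_compact hK i).isBounded t
        have h4 := hgood t ht htZ
        have h5 : ENNReal.ofReal (((cells δ (sl (mid^[i + 1] K) t)).ncard : ℝ) * δ ^ d) ≤
            ENNReal.ofReal (M' * (3 ^ d * ((cells δ (sl (mid^[i] K) t)).ncard : ℝ) * δ ^ d)) := by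
          rw [ENNReal.ofReal_mul (by linarith : (0 : ℝ) ≤ M')]
          exact h2.trans (h4.trans (by gcongr))
        rw [ENNReal.ofReal_le_ofReal_iff (by positivity)] at h5
        have h6 : ((cells δ (sl (mid^[i + 1] K) t)).ncard : ℝ) ≤
            M' * (3 ^ d * ((cells δ (sl (mid^[i] K) t)).ncard : ℝ)) := by
          have h7 : 0 < δ ^ d := by positivity
          rw [← mul_assoc M', ] at h5
          exact le_of_mul_le_mul_right h5 h7
        calc ((cells δ (sl (mid^[i] K) t + sl (mid^[i] K) t)).ncard : ℝ)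
            ≤ 13 ^ d * ((cells δ (sl (mid^[i + 1] K) t)).ncard : ℝ) := h1
          _ ≤ 13 ^ d * (M' * (3 ^ d * ((cells δ (sl (mid^[i] K) t)).ncard : ℝ))) := by gcongr
          _ = (39 ^ d * M') * ((cells δ (sl (mid^[i] K) t)).ncard : ℝ) := by
              rw [show (39 : ℝ) = 13 * 3 by norm_num, mul_pow]; ring
          _ ≤ (M' * M') * ((cells δ (sl (mid^[i] K) t)).ncard : ℝ) := by
              gcongr
          _ = Mt * ((cells δ (sl (mid^[i] K) t)).ncard : ℝ) := by rw [hMM]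
      · -- size
        have h1 := iter_le hδ hKb t hne' Lx lam hlam0 k (by
          intro l hl x y B' hB' c
          have h2 := hlx l x y B' hB' c
          have h3 : 0 ≤ B' := (abs_nonneg _).trans (hB' c)
          have h4 : lx l ≤ lam :=
            Finset.single_le_sum (fun l _ => hlx0 l) (Finset.mem_range.2 hl)
          nlinarith) M hM1 (hbig2 t) I i hi.le
        have h2 : bn δ (fun l => Lx l '' sl K t) k ≤ ((cells δ (sl F t)).ncard : ℝ) := by
          unfold bn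
          have h3 : cells δ (∑ l ∈ Finset.range k, (fun l => Lx l '' sl K t) l) ⊆
              cells δ (sl F t) := Set.image_mono (hsubF t)
          exact_mod_cast Set.ncard_le_ncard h3 (cells_finite hδ (sl_bounded hFb t))
        calc ((cells δ (sl (mid^[i] K) t)).ncard : ℝ)
            ≤ (2 * (2 * 2 ^ I * lam + 2) + 1) ^ d *
              (M ^ (2 ^ I) * (2 ^ d) ^ k * bn δ (fun l => Lx l '' sl K t) k) := h1
          _ = (C₂ * M') * bn δ (fun l => Lx l '' sl K t) k := by rw [hMI, hC₂]; ring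
          _ ≤ (M' * M') * ((cells δ (sl F t)).ncard : ℝ) := by
              have h4 : 0 ≤ bn δ (fun l => Lx l '' sl K t) k := by
                unfold bn; exact Nat.cast_nonneg _
              gcongr
          _ = Mt * ((cells δ (sl F t)).ncard : ℝ) := by rw [hMM]
    · rw [Set.not_nonempty_iff_eq_empty] at hne'
      refine ⟨∅, Bornology.isBounded_empty, hne'.le, ?_, ?_⟩
      · rw [Set.empty_add]
        have : (cells δ (∅ : Set (Fin d → ℝ))) = ∅ := Set.image_empty _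
        rw [this, Set.ncard_empty, Nat.cast_zero, mul_zero]
      · have : (cells δ (∅ : Set (Fin d → ℝ))) = ∅ := Set.image_empty _
        rw [this, Set.ncard_empty, Nat.cast_zero]
        positivity)
  refine le_trans (ENNReal.ofReal_le_ofReal ?_) key
  have h3 : (Mt ^ m)⁻¹ = δ ^ (γ * m) := by
    rw [hMt, ← Real.rpow_natCast, ← Real.rpow_mul hδ.le, ← Real.rpow_neg hδ.le]
    congr 1
    ring
  rw [h3, mul_assoc, ← Real.rpow_add hδ]
  exact mul_le_mul_of_nonneg_left (Real.rpow_le_rpow_of_exponent_ge hδ hδ1 hexp) hc.le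

theorem low_fib (d : ℕ) (ε : ℝ) (hε : 0 < ε) : ∃ N : ℕ, 0 < N ∧
    ∀ K : Set (EuclideanSpace ℝ (Fin (d + 1))), IsCompact K → HasSegments K →
      ∀ k : ℕ, N ≤ k → ∀ L : Fin k → (Fin d → ℝ) ≃ₗ[ℝ] (Fin d → ℝ),
        ∀ᶠ r : ℝ in 𝓝[>] (0 : ℝ), r ^ ε ≤ (volume (Metric.thickening r (fibSum L K))).toReal := by
  obtain ⟨N, hN0, hN⟩ := one_scale d ε hε
  refine ⟨N, hN0, ?_⟩
  intro K hK hKs k hk L
  obtain ⟨c, hc, hev⟩ := hN K hK hKs k hk L
  have hFb : Bornology.IsBounded (fibSum L K) := fib_bounded (by omega) L hK.isBounded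
  have hd1 : (0 : ℝ) < (d : ℝ) + 1 := by positivity
  have hlim : Tendsto (fun r : ℝ => r / ((d : ℝ) + 1)) (𝓝[>] 0) (𝓝[>] 0) := by
    apply tendsto_nhdsWithin_of_tendsto_nhds_of_eventually_within
    · have h1 : Tendsto (fun r : ℝ => r / ((d : ℝ) + 1)) (𝓝 0) (𝓝 (0 / ((d : ℝ) + 1))) :=
        (continuous_id.div_const _).tendsto 0
      rw [zero_div] at h1
      exact h1.mono_left nhdsWithin_le_nhds
    · filter_upwards [eventually_mem_nhdsWithin] with r hr
      exact div_pos hr hd1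
  set κ' : ℝ := c * (1 / ((d : ℝ) + 1)) ^ (ε / 2) with hκ'
  have hκ'pos : 0 < κ' := by positivity
  filter_upwards [hlim.eventually hev, ev_lt (κ'⁻¹) (ε / 2) (by positivity),
    eventually_mem_nhdsWithin] with r h1 h2 h3
  have hr : (0 : ℝ) < r := h3
  have e1 : ((d : ℝ) + 1) * (r / ((d : ℝ) + 1)) = r := by field_simp
  rw [e1] at h1
  have hfin : volume (Metric.thickening r (fibSum L K)) ≠ ⊤ :=
    (hFb.thickening (δ := r)).measure_lt_top.ne
  have h4 := (ENNReal.ofReal_le_iff_le_toReal hfin).mp h1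
  refine le_trans ?_ h4
  have h5 : c * (r / ((d : ℝ) + 1)) ^ (ε / 2) = κ' * r ^ (ε / 2) := by
    rw [hκ', div_eq_mul_one_div r, Real.mul_rpow hr.le (by positivity)]
    ring
  rw [h5]
  have h6 : r ^ ε = r ^ (ε / 2) * r ^ (ε / 2) := by
    rw [← Real.rpow_add hr]; congr 1; ring
  rw [h6]
  apply mul_le_mul_of_nonneg_right _ (by positivity)
  have h7 : 0 < r ^ (ε / 2) := by positivity
  rw [Real.rpow_neg hr.le] at h2
  exact ((inv_lt_inv₀ hκ'pos h7).1 h2).le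

/-- fibre sums of many copies have large lower Minkowski dimension -/
theorem dim_fib (d : ℕ) (η : ℝ) (hη : 0 < η) : ∃ N : ℕ,
    ∀ K : Set (EuclideanSpace ℝ (Fin (d + 1))), IsCompact K → HasSegments K →
      ∀ k : ℕ, N ≤ k → ∀ L : Fin k → (Fin d → ℝ) ≃ₗ[ℝ] (Fin d → ℝ),
        d + 1 - η ≤ Pool.Agent.H668.Str.lowerMinkowski (fibSum L K) := by
  obtain ⟨N, hN0, h⟩ := low_fib d η hη
  refine ⟨N, fun K hK hKs k hk L => ?_⟩
  have hFb : Bornology.IsBounded (fibSum L K) := fib_bounded (by omega) L hK.isBounded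
  have h1 := h K hK hKs k hk L
  have h2 := ratio_le h1
  have h3 := le_ratio hFb h1 (η := 1) one_pos
  have h4 : limsup (fun δ : ℝ => Real.log (volume (Metric.thickening δ (fibSum L K))).toReal /
      Real.log δ) (𝓝[>] 0) ≤ η :=
    limsup_le_of_le (IsCoboundedUnder.of_frequently_ge (a := -1) (Eventually.frequently h3)) h2
  unfold Pool.Agent.H668.Str.lowerMinkowski
  push_cast
  linarith

end Pool.Agent.H668.Fib
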