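import Pool.Agent.H668.Fib.Meas

/-!
# Fibre sums of a compact set: one height
-/

set_option autoImplicit false

open Finset Set MeasureTheory
open scoped Pointwise ENNReal

namespace Pool.Agent.H668.Fib
open Pool.Agent.W46.KK Pool.Agent.H668.Str

variable {d : ℕ}

theorem iter_compact {K : Set (EuclideanSpace ℝ (Fin (d + 1)))} (hK : IsCompact K) (i : ℕ) :
    IsCompact (mid^[i] K) := by
  induction i with
  | zero => exact hK
  | succ n ih => rw [Function.iterate_succ_apply']; exact mid_compact ih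

theorem subset_iter (K : Set (EuclideanSpace ℝ (Fin (d + 1)))) (i : ℕ) : K ⊆ mid^[i] K := by
  induction i with
  | zero => exact Set.Subset.refl _
  | succ n ih => rw [Function.iterate_succ_apply']; exact ih.trans (subset_mid _)

/-- invertible linear maps do not contract too much -/
theorem equiv_bound (L : (Fin d → ℝ) ≃ₗ[ℝ] (Fin d → ℝ)) :
    ∃ lam : ℝ, 0 ≤ lam ∧ ∀ x y : Fin d → ℝ, ∀ B : ℝ, (∀ i, |L x i - L y i| ≤ B) →
      ∀ i, |x i - y i| ≤ lam * B := by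
  set T := LinearMap.toContinuousLinearMap (L.symm : (Fin d → ℝ) →ₗ[ℝ] (Fin d → ℝ)) with hT
  refine ⟨‖T‖, norm_nonneg _, ?_⟩
  intro x y B hB i
  have hB0 : 0 ≤ B := (abs_nonneg _).trans (hB i)
  have h1 : ‖L x - L y‖ ≤ B := by
    rw [pi_norm_le_iff_of_nonneg hB0]
    exact hB
  have h2 := T.le_opNorm (L x - L y)
  have h3 : T (L x - L y) = x - y := by
    rw [hT]
    simp
  rw [h3] at h2
  have h4 := norm_le_pi_norm (x - y) i
  rw [Pi.sub_apply, Real.norm_eq_abs] at h4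
  calc |x i - y i| ≤ ‖T‖ * ‖L x - L y‖ := h4.trans h2
    _ ≤ ‖T‖ * B := by gcongr

theorem equiv_norm (L : (Fin d → ℝ) ≃ₗ[ℝ] (Fin d → ℝ)) :
    ∃ C : ℝ, 0 ≤ C ∧ ∀ x : Fin d → ℝ, ‖L x‖ ≤ C * ‖x‖ := by
  set T := LinearMap.toContinuousLinearMap (L : (Fin d → ℝ) →ₗ[ℝ] (Fin d → ℝ)) with hT
  exact ⟨‖T‖, norm_nonneg _, fun x => T.le_opNorm x⟩

/-- points of iterated midpoint sets and multiples of the set of the cells -/
theorem iter_near {δ : ℝ} (hδ : 0 < δ) {K : Set (EuclideanSpace ℝ (Fin (d + 1)))}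
    (t : ℝ) (L : (Fin d → ℝ) ≃ₗ[ℝ] (Fin d → ℝ))
    (hb : Bornology.IsBounded (L '' sl K t)) (i : ℕ) :
    ∀ x ∈ sl (mid^[i] K) t, ∃ w ∈ (2 ^ i) • dc δ (L '' sl K t),
      ∀ c, |(2 : ℝ) ^ i * L x c - δ * w c| ≤ 2 ^ i * δ := by
  induction i with
  | zero =>
    intro x hx
    refine ⟨fl δ (L x), ?_, ?_⟩
    · rw [pow_zero, one_nsmul, mem_dc hδ hb]
      exact ⟨L x, ⟨x, hx, rfl⟩, rfl⟩
    · intro c
      have h1 := Int.floor_le (L x c / δ)
      have h2 := Int.lt_floor_add_one (L x c / δ)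
      rw [le_div_iff₀ hδ] at h1
      rw [div_lt_iff₀ hδ] at h2
      unfold fl
      rw [pow_zero, one_mul, one_mul, abs_le]
      constructor <;> nlinarith
  | succ n ih =>
    intro x hx
    rw [Function.iterate_succ_apply', mem_sl_mid] at hx
    obtain ⟨y, hy, z, hz, rfl⟩ := hx
    obtain ⟨u, hu, hu2⟩ := ih y hy
    obtain ⟨w, hw, hw2⟩ := ih z hz
    refine ⟨u + w, ?_, ?_⟩
    · rw [pow_succ, mul_two, add_nsmul]
      exact Finset.add_mem_add hu hw
    · intro c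
      have h1 := abs_le.1 (hu2 c)
      have h2 := abs_le.1 (hw2 c)
      have h3 : L ((1 / 2 : ℝ) • (y + z)) c = 1 / 2 * (L y c + L z c) := by
        rw [map_smul, map_add]
        rfl
      rw [h3, Pi.add_apply, pow_succ, abs_le]
      push_cast
      constructor <;> nlinarith [h1.1, h1.2, h2.1, h2.2]

/-- the size of the iterated midpoint sets and of the fibre sums -/
theorem iter_le {δ : ℝ} (hδ : 0 < δ) {K : Set (EuclideanSpace ℝ (Fin (d + 1)))}
    (hK : Bornology.IsBounded K) (t : ℝ) (hne : (sl K t).Nonempty)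
    (L : ℕ → (Fin d → ℝ) ≃ₗ[ℝ] (Fin d → ℝ)) (lam : ℝ) (hlam : 0 ≤ lam) (k : ℕ)
    (hL : ∀ l < k, ∀ x y : Fin d → ℝ, ∀ B : ℝ, (∀ i, |L l x i - L l y i| ≤ B) →
      ∀ i, |x i - y i| ≤ lam * B) (M : ℝ) (hM : 1 ≤ M)
    (hbig : (2 ^ d) ^ k * bn δ (fun l => L l '' sl K t) k < M ^ k) (I i : ℕ) (hi : i ≤ I) :
    ((cells δ (sl (mid^[i] K) t)).ncard : ℝ) ≤
      (2 * (2 * 2 ^ I * lam + 2) + 1) ^ d *
        (M ^ (2 ^ I) * (2 ^ d) ^ k * bn δ (fun l => L l '' sl K t) k) := by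
  have hXb : ∀ l, Bornology.IsBounded (L l '' sl K t) := by
    intro l
    have h1 := (sl_bounded hK t)
    have h2 := (LinearMap.toContinuousLinearMap (L l : (Fin d → ℝ) →ₗ[ℝ] (Fin d → ℝ))).lipschitz
    exact h2.isBounded_image h1
  obtain ⟨j, hj, h⟩ := exists_multiples hδ (fun l => L l '' sl K t) hXb
    (fun l => hne.image _) k M (by linarith) hbig
  have h1 := cells_le_of_map hδ (sl (mid^[i] K) t) (fun x => (2 : ℝ) ^ i • L j x) lam (2 ^ i) hlam
    (by positivity) (by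
      intro x y B hB c
      have hB0 : 0 ≤ B := (abs_nonneg _).trans (hB c)
      have h2 : ∀ c, |L j x c - L j y c| ≤ B := by
        intro c
        have h3 := hB c
        simp only [Pi.smul_apply, smul_eq_mul] at h3
        rw [← mul_sub, abs_mul, abs_of_pos (by positivity : (0 : ℝ) < 2 ^ i)] at h3
        have h4 : (1 : ℝ) ≤ 2 ^ i := one_le_pow₀ one_le_two
        nlinarith [abs_nonneg (L j x c - L j y c)]
      exact hL j hj x y B h2 c) ((2 ^ i) • dc δ (L j '' sl K t)) (by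
      intro x hx
      exact iter_near hδ t (L j) (hXb j) i x hx)
  refine h1.trans ?_
  have h2 := h (2 ^ i)
  have h3 : (2 : ℝ) ^ i ≤ 2 ^ I := pow_le_pow_right₀ one_le_two hi
  have h4 : M ^ (2 ^ i) ≤ M ^ (2 ^ I) :=
    pow_le_pow_right₀ hM (Nat.pow_le_pow_right (by norm_num) hi)
  have h5 : 0 ≤ bn δ (fun l => L l '' sl K t) k := by unfold bn; exact Nat.cast_nonneg _
  calc (2 * (2 * 2 ^ i * lam + 2) + 1) ^ d * (((2 ^ i) • dc δ (L j '' sl K t)).card : ℝ)
      ≤ (2 * (2 * 2 ^ I * lam + 2) + 1) ^ d * (M ^ (2 ^ i) * (2 ^ d) ^ k *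
          bn δ (fun l => L l '' sl K t) k) := by gcongr
    _ ≤ _ := by gcongr

/-- sums of two points of a slice -/
theorem double_le {δ : ℝ} (hδ : 0 < δ) {C : Set (EuclideanSpace ℝ (Fin (d + 1)))}
    (hC : Bornology.IsBounded (mid C)) (t : ℝ) :
    ((cells δ (sl C t + sl C t)).ncard : ℝ) ≤
      13 ^ d * ((cells δ (sl (mid C) t)).ncard : ℝ) := by
  have h1 := cells_le_of_map hδ (sl C t + sl C t) (fun x => (1 / 2 : ℝ) • x) 2 1 (by norm_num)
    (by norm_num) (by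
      intro x y B hB i
      have h2 := hB i
      simp only [Pi.smul_apply, smul_eq_mul] at h2
      rw [← mul_sub, abs_mul, abs_of_pos (by norm_num : (0 : ℝ) < 1 / 2)] at h2
      linarith) (dc δ (sl (mid C) t)) (by
      intro x hx
      obtain ⟨y, hy, z, hz, rfl⟩ := Set.mem_add.1 hx
      refine ⟨fl δ ((1 / 2 : ℝ) • (y + z)), ?_, ?_⟩
      · rw [mem_dc hδ (sl_bounded hC t)]
        exact ⟨_, (mem_sl_mid C t _).2 ⟨y, hy, z, hz, rfl⟩, rfl⟩
      · intro c
        have h1 := Int.floor_le (((1 / 2 : ℝ) • (y + z)) c / δ)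
        have h2 := Int.lt_floor_add_one (((1 / 2 : ℝ) • (y + z)) c / δ)
        rw [le_div_iff₀ hδ] at h1
        rw [div_lt_iff₀ hδ] at h2
        unfold fl
        rw [one_mul, abs_le]
        constructor <;> nlinarith)
  rw [card_dc hδ (sl_bounded hC t)] at h1
  norm_num at h1 ⊢
  exact h1

end Pool.Agent.H668.Fib
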