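import Pool.Agent.H668.Fib.Cls
import Pool.Agent.H668.Fib.Scale

/-!
# Fibre sums of families of segments: volume
-/

set_option autoImplicit false

open Finset Set MeasureTheory
open scoped Pointwise ENNReal

namespace Pool.Agent.H668.Fib
open Pool.Agent.W46.KK Pool.Agent.H668.Str

variable {d : ℕ}

/-- the union of the segments -/
def segs {ι : Type} (I : Finset ι) (v p : ι → Fin d → ℝ) (b : ι → ℝ) (lam : ℝ) :
    Set (EuclideanSpace ℝ (Fin (d + 1))) :=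
  {x | ∃ i ∈ I, x 0 ∈ Set.Icc (b i) (b i + lam) ∧ ∀ l : Fin d, x l.succ = p i l + x 0 * v i l}

theorem segs_compact {ι : Type} (I : Finset ι) (v p : ι → Fin d → ℝ) (b : ι → ℝ) (lam : ℝ) :
    IsCompact (segs I v p b lam) := by
  have h1 : segs I v p b lam = ⋃ i ∈ I, (fun t : ℝ =>
      (WithLp.toLp 2 (Fin.cons t (fun l => p i l + t * v i l) : Fin (d + 1) → ℝ) :
        EuclideanSpace ℝ (Fin (d + 1)))) '' Set.Icc (b i) (b i + lam) := by
    ext x
    rw [Set.mem_iUnion₂]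
    constructor
    · rintro ⟨i, hi, h0, hx⟩
      refine ⟨i, hi, x 0, h0, ?_⟩
      ext l
      refine Fin.cases ?_ (fun l => ?_) l
      · rfl
      · exact (hx l).symm
    · rintro ⟨i, hi, t, ht, rfl⟩
      exact ⟨i, hi, ht, fun l => rfl⟩
  rw [h1]
  apply I.isCompact_biUnion
  intro i _
  apply isCompact_Icc.image
  have h2 : Continuous fun t : ℝ => (Fin.cons t (fun l => p i l + t * v i l) : Fin (d + 1) → ℝ) := by
    apply continuous_pi
    intro l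
    refine Fin.cases ?_ (fun l => ?_) l
    · exact continuous_id
    · simp only [Fin.cons_succ]
      fun_prop
  exact (PiLp.continuous_toLp 2 _).comp h2

theorem mem_sl_segs {ι : Type} (I : Finset ι) (v p : ι → Fin d → ℝ) (b : ι → ℝ) (lam t : ℝ)
    (y : Fin d → ℝ) : y ∈ sl (segs I v p b lam) t ↔
      ∃ i ∈ I, t ∈ Set.Icc (b i) (b i + lam) ∧ y = fun l => p i l + t * v i l := by
  constructor
  · rintro ⟨i, hi, h0, hx⟩
    exact ⟨i, hi, h0, funext fun l => hx l⟩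
  · rintro ⟨i, hi, h0, rfl⟩
    exact ⟨i, hi, h0, fun l => rfl⟩

theorem segs_ball {ι : Type} (I : Finset ι) (v p : ι → Fin d → ℝ) (b : ι → ℝ) (lam H : ℝ)
    (hlam : 0 < lam) (hH : 0 < H) (hv : ∀ i ∈ I, ∀ l, |v i l| ≤ H) (hp : ∀ i ∈ I, ∀ l, |p i l| ≤ H)
    (hb : ∀ i ∈ I, |b i| ≤ H) :
    segs I v p b lam ⊆ Metric.closedBall 0 ((H + lam) + (d + 1) * (H + (H + lam) * H)) := by
  rintro x ⟨i, hi, h0, hx⟩
  rw [mem_closedBall_zero_iff, EuclideanSpace.norm_eq]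
  apply Real.sqrt_le_iff.mpr
  refine ⟨by positivity, ?_⟩
  rw [Fin.sum_univ_succ]
  have h1 : |x 0| ≤ H + lam := by
    have h2 := abs_le.1 (hb i hi)
    rw [abs_le]
    constructor
    · linarith [h0.1, h2.1]
    · linarith [h0.2, h2.2]
  have h2 : ∀ l : Fin d, |x l.succ| ≤ H + (H + lam) * H := by
    intro l
    rw [hx l]
    refine (abs_add_le _ _).trans ?_
    rw [abs_mul]
    have := mul_le_mul h1 (hv i hi l) (abs_nonneg _) (by positivity)
    linarith [hp i hi l]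
  have h3 : ∑ l : Fin d, ‖x l.succ‖ ^ 2 ≤ ∑ _l : Fin d, (H + (H + lam) * H) ^ 2 := by
    refine Finset.sum_le_sum fun l _ => ?_
    rw [Real.norm_eq_abs]
    exact pow_le_pow_left₀ (abs_nonneg _) (h2 l) 2
  rw [Finset.sum_const, Finset.card_univ, Fintype.card_fin, nsmul_eq_mul] at h3
  have h4 : ‖x 0‖ ^ 2 ≤ (H + lam) ^ 2 := by
    rw [Real.norm_eq_abs]
    exact pow_le_pow_left₀ (abs_nonneg _) h1 2
  have hd0 : (0 : ℝ) ≤ d := Nat.cast_nonneg d
  have h5 : 0 < H + (H + lam) * H := by positivity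
  have h6 : 0 < H + lam := by positivity
  obtain ⟨A, hA⟩ : ∃ A : ℝ, A = H + (H + lam) * H := ⟨_, rfl⟩
  rw [← hA] at h3 h5 ⊢
  nlinarith [mul_pos h5 h6, mul_pos h5 h5, mul_nonneg hd0 (mul_pos h5 h6).le,
    mul_nonneg hd0 (mul_pos h5 h5).le, mul_nonneg (mul_nonneg hd0 hd0) (mul_pos h5 h5).le]

theorem fl_refine {s : ℝ} (hs : 0 < s) {Λ : ℕ} (hΛ : 0 < Λ) {x y : Fin d → ℝ}
    (h : fl (s / Λ) x = fl (s / Λ) y) : fl s x = fl s y := by
  have hΛ' : (0 : ℝ) < Λ := by exact_mod_cast hΛ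
  have key : ∀ x y : ℝ, ⌊x / (s / Λ)⌋ = ⌊y / (s / Λ)⌋ → ¬ ⌊x / s⌋ < ⌊y / s⌋ := by
    intro x y h hlt
    have h1 : x / s < ⌊y / s⌋ := by
      have a2 := Int.lt_floor_add_one (x / s)
      have : (⌊x / s⌋ : ℝ) + 1 ≤ ⌊y / s⌋ := by exact_mod_cast hlt
      linarith
    have h2 := Int.floor_le (y / s)
    have e1 : x / (s / Λ) = x / s * Λ := by field_simp
    have e2 : y / (s / Λ) = y / s * Λ := by field_simp
    have h3 : x / (s / Λ) < ((⌊y / s⌋ * (Λ : ℤ) : ℤ) : ℝ) := by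
      rw [e1]; push_cast
      exact mul_lt_mul_of_pos_right h1 hΛ'
    have h4 : ((⌊y / s⌋ * (Λ : ℤ) : ℤ) : ℝ) ≤ y / (s / Λ) := by
      rw [e2]; push_cast
      exact mul_le_mul_of_nonneg_right h2 hΛ'.le
    have h5 := Int.floor_lt.2 h3
    have h6 := Int.le_floor.2 h4
    omega
  funext i
  have hi : ⌊x i / (s / Λ)⌋ = ⌊y i / (s / Λ)⌋ := congrFun h i
  exact le_antisymm (not_lt.1 (key _ _ hi.symm)) (not_lt.1 (key _ _ hi))

/-- **Fibre sums of families of segments**: the volume. -/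
theorem fib_lines (d : ℕ) (lam : ℝ) (hlam : 0 < lam) (H : ℝ) (hH : 0 < H) (η : ℝ) (hη : 0 < η) :
    ∃ N : ℕ, 0 < N ∧ ∀ k : ℕ, N ≤ k → ∀ Λ : ℕ, 0 < Λ → ∃ c : ℝ, 0 < c ∧
      ∀ (s : ℝ), 0 < s → s ≤ 1 → ∀ (ι : Type) (I : Finset ι)
      (v p : ι → Fin d → ℝ) (b : ι → ℝ),
      (∀ i ∈ I, ∀ j ∈ I, i ≠ j → fl s (v i) ≠ fl s (v j)) →
      (∀ i ∈ I, ∀ l, |v i l| ≤ H) → (∀ i ∈ I, ∀ l, |p i l| ≤ H) → (∀ i ∈ I, |b i| ≤ H) →
      ∀ L : Fin k → (Fin d → ℝ) ≃ₗ[ℝ] (Fin d → ℝ),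
      (∀ j x, ‖L j x‖ ≤ Λ * ‖x‖) → (∀ j x, ‖x‖ ≤ Λ * ‖L j x‖) →
      ∀ (T : Set (ℝ × (Fin d → ℝ))), MeasurableSet T →
      (∀ t, ∀ x : Fin k → Fin d → ℝ, (∀ j, x j ∈ sl (segs I v p b lam) t) →
        ∀ y : Fin d → ℝ, (∀ l, |y l - ∑ j, L j (x j) l| ≤ s / Λ) → (t, y) ∈ T) →
      ENNReal.ofReal (c * s ^ η * (s ^ d * (I.card : ℝ))) ≤ volume T := by
  classical
  obtain ⟨k₀, hk₀⟩ := exists_nat_gt (2 * (d : ℝ) / η)
  obtain ⟨S, hS, hSk⟩ : ∃ S : Finset ℚ, (-1 : ℚ) ∉ S ∧ S.card = k₀ := by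
    refine ⟨(Finset.range k₀).image fun i : ℕ => (i : ℚ), ?_, ?_⟩
    · intro h
      obtain ⟨i, -, hi⟩ := Finset.mem_image.1 h
      have : (0 : ℚ) ≤ i := Nat.cast_nonneg _
      linarith
    · rw [Finset.card_image_of_injective _ Nat.cast_injective, Finset.card_range]
  obtain ⟨m, c, κ, μ, hc, hκ, hμ, hclass⟩ := slab_class S hS d lam hlam H hH
  have hd0 : (0 : ℝ) ≤ d := Nat.cast_nonneg d
  have hm0 : (0 : ℝ) ≤ m := Nat.cast_nonneg m
  have hd : (d : ℝ) / (S.card + 1) ≤ η / 2 := by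
    rw [hSk, div_le_iff₀ (by positivity)]
    rw [div_lt_iff₀ hη] at hk₀
    nlinarith
  set γ : ℝ := η / (2 * (m + 1)) with hγ
  have hγpos : 0 < γ := by positivity
  set B : ℕ := ⌈(2 * (d : ℝ) + 2) / γ⌉₊ with hB
  set I₀ : ℕ := ⌈(B : ℝ) * μ / κ⌉₊ + 1 with hI₀
  have hBI : (B : ℝ) * μ ≤ κ * (I₀ : ℝ) := by
    have h1 := Nat.le_ceil ((B : ℝ) * μ / κ)
    rw [div_le_iff₀ hκ] at h1
    rw [hI₀]; push_cast
    nlinarith
  set γ' : ℝ := γ / (2 * 2 ^ I₀) with hγ'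
  have hγ'pos : 0 < γ' := by positivity
  set N : ℕ := ⌈((d : ℝ) + 1) / γ'⌉₊ + 1 with hN
  have hexp : γ * m + (d : ℝ) / (S.card + 1) ≤ η := by
    have h2 : γ * m ≤ η / 2 := by
      rw [hγ, div_mul_eq_mul_div, div_le_div_iff₀ (by positivity) (by norm_num)]
      nlinarith
    linarith
  refine ⟨N, by omega, ?_⟩
  intro k hk Λ hΛ
  have hk0 : 0 < k := by omega
  have hΛ1 : (1 : ℝ) ≤ Λ := by exact_mod_cast hΛ
  have hΛ0 : (0 : ℝ) < Λ := by linarith
  set R : ℝ := (H + lam) + (d + 1) * (H + (H + lam) * H) with hR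
  have hR0 : 0 ≤ R := by positivity
  set Rk : ℝ := (k : ℝ) * (Λ * R) with hRk
  have hRk0 : 0 ≤ Rk := by positivity
  set A₁ : ℝ := (2 * R + 2) ^ d + 1 with hA₁
  have hA₁1 : 1 ≤ A₁ := by
    have : 0 ≤ (2 * R + 2) ^ d := by positivity
    linarith
  set Cb : ℝ := (2 ^ d) ^ k * (2 * Rk + 5) ^ d with hCb
  have hCb0 : 0 ≤ Cb := by positivity
  set A₂ : ℝ := Cb + 1 with hA₂
  have hA₂1 : 1 ≤ A₂ := by linarith
  set C₂ : ℝ := (2 * (2 * 2 ^ I₀ * Λ + 2) + 1) ^ d * (2 ^ d) ^ k with hC₂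
  have hC₂0 : 0 ≤ C₂ := by positivity
  set A₃ : ℝ := 39 ^ d * A₁ + C₂ * A₂ ^ (2 ^ I₀) * (Λ : ℝ) ^ d + 1 with hA₃
  have hA₃a : 39 ^ d * A₁ ≤ A₃ := by
    have : 0 ≤ C₂ * A₂ ^ (2 ^ I₀) * (Λ : ℝ) ^ d := by positivity
    linarith
  have hA₃b : C₂ * A₂ ^ (2 ^ I₀) * (Λ : ℝ) ^ d ≤ A₃ := by
    have : 0 ≤ 39 ^ d * A₁ := by positivity
    linarith
  have hA₃1 : 1 ≤ A₃ := by
    have h1 : 0 ≤ 39 ^ d * A₁ := by positivity
    have h2 : 0 ≤ C₂ * A₂ ^ (2 ^ I₀) * (Λ : ℝ) ^ d := by positivity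
    linarith
  refine ⟨c * (A₃ ^ m)⁻¹, by positivity, ?_⟩
  intro s hs hs1 ι I v p b hsep hv hp hb L hL1 hL2 T hT hTn
  rcases I.eq_empty_or_nonempty with hI | hIne
  · rw [hI, Finset.card_empty, Nat.cast_zero, mul_zero, mul_zero, ENNReal.ofReal_zero]
    exact zero_le
  obtain ⟨J, hJI, a, hJne, hJt, hvol⟩ := hclass s hs hs1 ι I v p b hIne hsep hv hb
  set C := segs I v p b lam with hC
  have hCc : IsCompact C := segs_compact I v p b lam
  have hCb' := hCc.isBounded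
  have hCR : C ⊆ Metric.closedBall 0 R := segs_ball I v p b lam H hlam hH hv hp hb
  have hslR : ∀ t, ∀ x ∈ sl C t, ‖x‖ ≤ R := by
    intro t x hx
    rw [pi_norm_le_iff_of_nonneg hR0]
    intro i
    have h1 := hCR hx
    rw [mem_closedBall_zero_iff] at h1
    have h2 := PiLp.norm_apply_le (WithLp.toLp 2 (Fin.cons t x : Fin (d + 1) → ℝ) :
      EuclideanSpace ℝ (Fin (d + 1))) (Fin.succ i)
    simp only [Fin.cons_succ] at h2
    exact h2.trans h1
  set Lx : ℕ → (Fin d → ℝ) ≃ₗ[ℝ] (Fin d → ℝ) := fun l =>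
    if h : l < k then L ⟨l, h⟩ else LinearEquiv.refl ℝ _ with hLx
  have hLx1 : ∀ l < k, ∀ x, ‖Lx l x‖ ≤ Λ * ‖x‖ := by
    intro l hl x
    rw [hLx]
    dsimp only
    rw [dif_pos hl]
    exact hL1 _ x
  have hLx2 : ∀ l < k, ∀ x y : Fin d → ℝ, ∀ B : ℝ, (∀ i, |Lx l x i - Lx l y i| ≤ B) →
      ∀ i, |x i - y i| ≤ (Λ : ℝ) * B := by
    intro l hl x y B' hB' i
    have hB0 : 0 ≤ B' := (abs_nonneg _).trans (hB' i)
    have h1 : ‖Lx l (x - y)‖ ≤ B' := by
      rw [map_sub, pi_norm_le_iff_of_nonneg hB0]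
      exact hB'
    have h2 : ‖x - y‖ ≤ Λ * ‖Lx l (x - y)‖ := by
      rw [hLx]
      dsimp only
      rw [dif_pos hl]
      exact hL2 _ _
    have h3 := norm_le_pi_norm (x - y) i
    rw [Pi.sub_apply, Real.norm_eq_abs] at h3
    calc |x i - y i| ≤ Λ * ‖Lx l (x - y)‖ := h3.trans h2
      _ ≤ Λ * B' := by gcongr
  -- the sums of the images of a slice
  have hbn : ∀ t : ℝ, bn s (fun l => Lx l '' sl C t) k ≤ (2 * Rk + 5) ^ d * (s⁻¹) ^ d := by
    intro t
    apply cells_ball_le hs hs1 hRk0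
    intro x hx i
    obtain ⟨g, hg, rfl⟩ := (Set.mem_finsetSum _ _ _).1 hx
    have h0 : Rk = ∑ _l ∈ Finset.range k, Λ * R := by
      rw [Finset.sum_const, Finset.card_range, nsmul_eq_mul]
    rw [Finset.sum_apply, h0]
    refine (Finset.abs_sum_le_sum_abs _ _).trans (Finset.sum_le_sum fun l hl => ?_)
    obtain ⟨y, hy, hyg⟩ := hg hl
    rw [← hyg]
    have h1 := norm_le_pi_norm (Lx l y) i
    rw [Real.norm_eq_abs] at h1
    exact h1.trans ((hLx1 l (Finset.mem_range.1 hl) y).trans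
      (mul_le_mul_of_nonneg_left (hslR t y hy) hΛ0.le))
  set M' : ℝ := A₁ * s ^ (-(γ / 2)) with hM'
  have hs2 : 1 ≤ s ^ (-(γ / 2)) := Real.one_le_rpow_of_pos_of_le_one_of_nonpos hs hs1 (by linarith)
  have hM'1 : 1 ≤ M' := one_le_mul_of_one_le_of_one_le hA₁1 hs2
  set M : ℝ := A₂ * s ^ (-γ') with hM
  have hs3 : 1 ≤ s ^ (-γ') := Real.one_le_rpow_of_pos_of_le_one_of_nonpos hs hs1 (by linarith)
  have hM1 : 1 ≤ M := one_le_mul_of_one_le_of_one_le hA₂1 hs3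
  have hs4 : s ^ (-(γ / 2)) ≤ s ^ (-γ) := Real.rpow_le_rpow_of_exponent_ge hs hs1 (by linarith)
  set K : ℝ := A₃ * s ^ (-γ) with hK
  have hs5 : 1 ≤ s ^ (-γ) := hs2.trans hs4
  have hK1 : 1 ≤ K := one_le_mul_of_one_le_of_one_le hA₃1 hs5
  have hMI : M ^ (2 ^ I₀) = A₂ ^ (2 ^ I₀) * s ^ (-(γ / 2)) := by
    rw [hM, mul_pow]
    congr 1
    rw [← Real.rpow_natCast, ← Real.rpow_mul hs.le]
    congr 1
    rw [hγ']
    push_cast
    field_simp
  have hbig1 : (2 * R + 2) ^ d < M' ^ (B + 1) * s ^ d := by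
    have h1 : M' ^ (B + 1) * s ^ d = A₁ ^ (B + 1) * s ^ (-(γ / 2) * ((B : ℝ) + 1) + d) := by
      rw [hM', mul_pow, ← Real.rpow_natCast (s ^ (-(γ / 2))), ← Real.rpow_mul hs.le,
        ← Real.rpow_natCast s d, mul_assoc, ← Real.rpow_add hs]
      push_cast
      rfl
    rw [h1]
    have h2 := Nat.le_ceil ((2 * (d : ℝ) + 2) / γ)
    rw [div_le_iff₀ hγpos] at h2
    rw [← hB] at h2
    have h3 : 1 ≤ s ^ (-(γ / 2) * ((B : ℝ) + 1) + d) :=
      Real.one_le_rpow_of_pos_of_le_one_of_nonpos hs hs1 (by nlinarith)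
    have h4 : A₁ ≤ A₁ ^ (B + 1) := by
      calc A₁ = A₁ ^ 1 := (pow_one _).symm
        _ ≤ A₁ ^ (B + 1) := pow_le_pow_right₀ hA₁1 (by omega)
    calc (2 * R + 2) ^ d < A₁ := by rw [hA₁]; linarith
      _ ≤ A₁ ^ (B + 1) := h4
      _ ≤ A₁ ^ (B + 1) * s ^ (-(γ / 2) * ((B : ℝ) + 1) + d) :=
        le_mul_of_one_le_right (by positivity) h3
  have hbig2 : ∀ t : ℝ, (2 ^ d) ^ k * bn s (fun l => Lx l '' sl C t) k < M ^ k := by
    intro t
    have h1 : (2 ^ d) ^ k * bn s (fun l => Lx l '' sl C t) k ≤ Cb * (s⁻¹) ^ d := by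
      rw [hCb, mul_assoc]
      exact mul_le_mul_of_nonneg_left (hbn t) (by positivity)
    refine h1.trans_lt ?_
    have h2 : (s⁻¹) ^ d = s ^ (-(d : ℝ)) := by
      rw [inv_pow, Real.rpow_neg hs.le, Real.rpow_natCast]
    have h3 : (0 : ℝ) < (s⁻¹) ^ d := by positivity
    have h4 : A₂ ≤ A₂ ^ k := by
      calc A₂ = A₂ ^ 1 := (pow_one _).symm
        _ ≤ A₂ ^ k := pow_le_pow_right₀ hA₂1 (by omega)
    calc Cb * (s⁻¹) ^ d < A₂ * (s⁻¹) ^ d := by
          apply mul_lt_mul_of_pos_right _ h3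
          rw [hA₂]; linarith
      _ ≤ A₂ ^ k * s ^ (-γ' * (k : ℝ)) := by
          rw [h2]
          apply mul_le_mul h4 _ (by positivity) (by positivity)
          apply Real.rpow_le_rpow_of_exponent_ge hs hs1
          have h4 := Nat.le_ceil (((d : ℝ) + 1) / γ')
          rw [div_le_iff₀ hγ'pos] at h4
          have h5 : (⌈((d : ℝ) + 1) / γ'⌉₊ : ℝ) ≤ k := by
            have : ⌈((d : ℝ) + 1) / γ'⌉₊ ≤ k := by omega
            exact_mod_cast this
          nlinarith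
      _ = M ^ k := by
          rw [hM, mul_pow, ← Real.rpow_natCast (s ^ (-γ')), ← Real.rpow_mul hs.le]
  obtain ⟨i, hi, Z, hZ, hgood⟩ := exists_good hCc hR0 hCR hs hs1 M' hM'1 B I₀ (by omega) a μ κ hκ
    hbig1 hBI
  have key := hvol T hT K hK1 Z hZ (by
    intro t ht htZ
    obtain ⟨j₀, hj₀⟩ := hJne
    have hne' : (sl C t).Nonempty :=
      ⟨_, (mem_sl_segs I v p b lam t _).2 ⟨j₀, hJI hj₀, hJt j₀ hj₀ t ht, rfl⟩⟩
    set Sk : Set (Fin d → ℝ) := ∑ l ∈ Finset.range k, (fun l => Lx l '' sl C t) l with hSk'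
    have hXb : ∀ l, Bornology.IsBounded (Lx l '' sl C t) := by
      intro l
      have h1 := (sl_bounded hCb' t)
      have h2 := (LinearMap.toContinuousLinearMap (Lx l : (Fin d → ℝ) →ₗ[ℝ] (Fin d → ℝ))).lipschitz
      exact h2.isBounded_image h1
    have hSkb : Bornology.IsBounded Sk := bounded_sum _ hXb k
    have hSkc : ((cells s Sk).ncard : ℝ) = bn s (fun l => Lx l '' sl C t) k := rfl
    refine ⟨((cells s Sk).ncard : ℝ) / (Λ : ℝ) ^ d, by positivity, ?_, ?_⟩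
    · -- volume of the slice
      have hrep : ∀ x : Fin d → ℤ, ∃ y : Fin d → ℝ, x ∈ cells s Sk → y ∈ Sk ∧ fl s y = x := by
        intro x
        by_cases h : x ∈ cells s Sk
        · obtain ⟨y, hy, hyx⟩ := h
          exact ⟨y, fun _ => ⟨hy, hyx⟩⟩
        · exact ⟨0, fun h' => absurd h' h⟩
      choose f hf using hrep
      have h1 := card_mul_le (δ := s / Λ) (by positivity) (dc s Sk) f (Prod.mk t ⁻¹' T) (by
        intro x hx y hy
        rw [mem_dc hs hSkb] at hx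
        obtain ⟨g, hg, hgf⟩ := (Set.mem_finsetSum _ _ _).1 (hf x hx).1
        have h2 : ∀ j : Fin k, ∃ u ∈ sl C t, L j u = g j := by
          intro j
          obtain ⟨u, hu, hug⟩ := hg (Finset.mem_range.2 j.2)
          refine ⟨u, hu, ?_⟩
          rw [← hug, hLx]
          dsimp only
          rw [dif_pos j.2]
        choose u hu hug using h2
        apply hTn t u hu y
        intro l
        have h3 : ∑ j, L j (u j) l = f x l := by
          rw [← hgf, Finset.sum_apply, Finset.sum_range]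
          exact Finset.sum_congr rfl fun j _ => by rw [hug j]
        rw [h3]
        exact hy l)
      have h2 : ((dc s Sk).image (fun x => fl (s / Λ) (f x))).card = (dc s Sk).card := by
        apply Finset.card_image_of_injOn
        intro x hx y hy h
        have hx' : x ∈ cells s Sk := (mem_dc hs hSkb x).1 hx
        have hy' : y ∈ cells s Sk := (mem_dc hs hSkb y).1 hy
        have h3 := fl_refine hs hΛ h
        rw [(hf x hx').2, (hf y hy').2] at h3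
        exact h3
      rw [h2, card_dc hs hSkb] at h1
      have h3 : ((cells s Sk).ncard : ℝ) / (Λ : ℝ) ^ d * s ^ d =
          ((cells s Sk).ncard : ℝ) * (s / Λ) ^ d := by
        rw [div_pow]; ring
      rw [h3, ENNReal.ofReal_mul (Nat.cast_nonneg _), ENNReal.ofReal_natCast,
        ENNReal.ofReal_pow (by positivity)]
      exact h1
    · refine ⟨{sl (mid^[i] C) t}, by simp, ?_, ?_⟩
      · rintro _ ⟨j, hj, rfl⟩
        simp only [Finset.mem_singleton, Set.iUnion_iUnion_eq_left]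
        exact subset_iter C i ((mem_sl_segs I v p b lam t _).2
          ⟨j, hJI hj, hJt j hj t ht, rfl⟩)
      · intro D hD
        rw [Finset.mem_singleton] at hD
        subst hD
        refine ⟨sl_bounded (iter_compact hCc i).isBounded t, ?_, ?_⟩
        · -- doubling
          have h1 := double_le hs (C := mid^[i] C)
            (mid_compact (iter_compact hCc i)).isBounded t
          rw [← Function.iterate_succ_apply' mid i C] at h1
          have h2 := cells_le_G hs (iter_compact hCc (i + 1)).isBounded t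
          have h3 := G_le_cells hs (iter_compact hCc i).isBounded t
          have h4 := hgood t ht htZ
          have h5 : ENNReal.ofReal (((cells s (sl (mid^[i + 1] C) t)).ncard : ℝ) * s ^ d) ≤
              ENNReal.ofReal (M' * (3 ^ d * ((cells s (sl (mid^[i] C) t)).ncard : ℝ) * s ^ d)) := by
            rw [ENNReal.ofReal_mul (by linarith : (0 : ℝ) ≤ M')]
            exact h2.trans (h4.trans (by gcongr))
          rw [ENNReal.ofReal_le_ofReal_iff (by positivity)] at h5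
          have h6 : ((cells s (sl (mid^[i + 1] C) t)).ncard : ℝ) ≤
              M' * (3 ^ d * ((cells s (sl (mid^[i] C) t)).ncard : ℝ)) := by
            have h7 : 0 < s ^ d := by positivity
            rw [← mul_assoc M', ] at h5
            exact le_of_mul_le_mul_right h5 h7
          calc ((cells s (sl (mid^[i] C) t + sl (mid^[i] C) t)).ncard : ℝ)
              ≤ 13 ^ d * ((cells s (sl (mid^[i + 1] C) t)).ncard : ℝ) := h1
            _ ≤ 13 ^ d * (M' * (3 ^ d * ((cells s (sl (mid^[i] C) t)).ncard : ℝ))) := by gcongr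
            _ = ((39 ^ d * A₁) * s ^ (-(γ / 2))) * ((cells s (sl (mid^[i] C) t)).ncard : ℝ) := by
                rw [hM', show (39 : ℝ) = 13 * 3 by norm_num, mul_pow]; ring
            _ ≤ (A₃ * s ^ (-γ)) * ((cells s (sl (mid^[i] C) t)).ncard : ℝ) := by
                gcongr
        · -- size
          have h1 := iter_le hs hCb' t hne' Lx Λ hΛ0.le k hLx2 M hM1 (hbig2 t) I₀ i hi.le
          calc ((cells s (sl (mid^[i] C) t)).ncard : ℝ)
              ≤ (2 * (2 * 2 ^ I₀ * Λ + 2) + 1) ^ d *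
                (M ^ (2 ^ I₀) * (2 ^ d) ^ k * bn s (fun l => Lx l '' sl C t) k) := h1
            _ = (C₂ * A₂ ^ (2 ^ I₀) * (Λ : ℝ) ^ d) * s ^ (-(γ / 2)) *
                (((cells s Sk).ncard : ℝ) / (Λ : ℝ) ^ d) := by
                rw [hMI, hC₂, hSkc]; field_simp
            _ ≤ A₃ * s ^ (-γ) * (((cells s Sk).ncard : ℝ) / (Λ : ℝ) ^ d) := by
                gcongr)
  refine le_trans (ENNReal.ofReal_le_ofReal ?_) key
  have h3 : (K ^ m)⁻¹ = (A₃ ^ m)⁻¹ * s ^ (γ * m) := by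
    rw [hK, mul_pow, mul_inv, ← Real.rpow_natCast (s ^ (-γ)), ← Real.rpow_mul hs.le,
      ← Real.rpow_neg hs.le]
    congr 2
    ring
  rw [h3]
  calc c * (A₃ ^ m)⁻¹ * s ^ η * (s ^ d * (I.card : ℝ))
      ≤ c * (A₃ ^ m)⁻¹ * s ^ (γ * m + (d : ℝ) / (S.card + 1)) * (s ^ d * (I.card : ℝ)) := by
        have := Real.rpow_le_rpow_of_exponent_ge hs hs1 hexp
        gcongr
    _ = _ := by rw [Real.rpow_add hs]; ring

end Pool.Agent.H668.Fib
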