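import Pool.Agent.H668.Str.Final

/-!
# Kakeya sets with structured covers of the slices in one slab
-/

set_option autoImplicit false

open Finset MeasureTheory Set
open scoped ENNReal Pointwise

namespace Pool.Agent.H668.Fib
open Pool.Agent.W46.KK Pool.Agent.H668.Str

/-- families of segments: only the heights of one slab count -/
theorem kak_loc (S : Finset ℚ) (hS : (-1 : ℚ) ∉ S) (hne : S.Nonempty) (d : ℕ) (lam : ℝ)
    (hlam : 0 < lam) :
    ∃ m : ℕ, ∃ κ μ : ℝ, 0 < κ ∧ 0 < μ ∧ ∀ R : ℝ, 0 < R → ∃ c : ℝ, 0 < c ∧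
      ∀ (δ : ℝ), 0 < δ → ∀ (p : (Fin d → ℝ) → Fin d → ℝ)
      (b : (Fin d → ℝ) → ℝ), (∀ v, |b v| ≤ R) → ∃ a : ℝ, ∀ (T : Set (ℝ × (Fin d → ℝ))),
      MeasurableSet T →
      ∀ (K L : ℝ), 1 ≤ K → 1 ≤ L → ∀ Z : Set ℝ, volume Z ≤ ENNReal.ofReal κ →
      (∀ t ∈ Set.Ico a (a + μ), t ∉ Z → ∃ N : ℝ, 0 ≤ N ∧
        ENNReal.ofReal (N * δ ^ d) ≤ volume (Prod.mk t ⁻¹' T) ∧
        Cov δ K L (K * N) ((fun v => fun i => p v i + t * v i) ''
          {v : Fin d → ℝ | (∀ i, 0 ≤ v i ∧ v i ≤ 1) ∧ t ∈ Set.Icc (b v) (b v + lam)})) →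
      ENNReal.ofReal (c * ((K * L) ^ m)⁻¹ * δ ^ ((d : ℝ) / (S.card + 1))) ≤ volume T := by
  classical
  obtain ⟨m, η, κ, hη, hκ, hslab⟩ := slab S hS d (lam / 2) (by positivity)
  set θ : ℝ := (S.card : ℝ) / (S.card + 1) with hθ
  have hScard : (0 : ℝ) < S.card := by exact_mod_cast hne.card_pos
  have hθ0 : 0 < θ := by rw [hθ]; positivity
  have hθ1 : θ ≤ 1 := by rw [hθ, div_le_one (by positivity)]; linarith
  set μ : ℝ := lam / 2 with hμ
  have hμpos : 0 < μ := by positivity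
  refine ⟨m, κ, μ, hκ, hμpos, ?_⟩
  intro R hR
  set Q : ℤ := ⌈R / μ⌉ + 1 with hQ
  have hQ0 : 0 ≤ Q := by
    have : 0 ≤ ⌈R / μ⌉ := Int.ceil_nonneg (by positivity)
    omega
  set q0 : ℝ := 2 * (Q : ℝ) + 1 with hq0
  have hq0pos : 0 < q0 := by
    have : (0 : ℝ) ≤ Q := by exact_mod_cast hQ0
    rw [hq0]; linarith
  refine ⟨κ * (η / 2) ^ ((d : ℝ) * θ) / q0 ^ θ, by positivity, ?_⟩
  intro δ hδ p b hb
  set Lg : ℝ := 2 * δ / η with hLg
  have hLpos : 0 < Lg := by positivity
  set V := grid d Lg with hV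
  set j : (Fin d → ℝ) → ℤ := fun v => ⌈b v / μ⌉ with hj
  have hVcard := grid_card (d := d) hLpos
  have hVpos : (0 : ℝ) < V.card := lt_of_lt_of_le (by positivity) hVcard
  -- one slab contains many
  obtain ⟨q, hq⟩ : ∃ q : ℤ, (V.card : ℝ) / q0 ≤ ((V.filter fun v => j v = q).card : ℝ) := by
    by_contra hcon
    push Not at hcon
    have hmaps : ∀ v ∈ V, j v ∈ Finset.Icc (-Q) Q := by
      intro v _
      rw [Finset.mem_Icc]
      have h1 := abs_le.1 (hb v)
      have h2 : b v / μ ≤ R / μ := div_le_div_of_nonneg_right h1.2 hμpos.le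
      have h3 : -(R / μ) ≤ b v / μ := by
        rw [← neg_div]; exact div_le_div_of_nonneg_right h1.1 hμpos.le
      have h4 : ⌈b v / μ⌉ ≤ ⌈R / μ⌉ := Int.ceil_le_ceil h2
      have h5 : -⌈R / μ⌉ ≤ ⌈b v / μ⌉ := by
        have h6 : (-(⌈R / μ⌉ : ℤ) : ℝ) ≤ (⌈b v / μ⌉ : ℤ) := by
          have := Int.le_ceil (R / μ)
          have := Int.le_ceil (b v / μ)
          linarith
        exact_mod_cast h6
      simp only [hj, hQ]
      constructor <;> omega
    have hsum := Finset.card_eq_sum_card_fiberwise (f := j) (s := V) (t := Finset.Icc (-Q) Q)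
      (fun v hv => hmaps v hv)
    have h1 : (V.card : ℝ) = ∑ q ∈ Finset.Icc (-Q) Q, ((V.filter fun v => j v = q).card : ℝ) := by
      rw [hsum]; push_cast; rfl
    have hIcc : ((Finset.Icc (-Q) Q).card : ℝ) = q0 := by
      rw [Int.card_Icc]
      have h0 : 0 ≤ Q + 1 - -Q := by omega
      have h2 : (((Q + 1 - -Q).toNat : ℤ) : ℝ) = ((Q + 1 - -Q : ℤ) : ℝ) := by
        rw [Int.toNat_of_nonneg h0]
      rw [Int.cast_natCast] at h2
      rw [h2, hq0]; push_cast; ring
    have hne' : (Finset.Icc (-Q) Q).Nonempty := ⟨0, by rw [Finset.mem_Icc]; constructor <;> omega⟩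
    have h3 : ∑ q ∈ Finset.Icc (-Q) Q, ((V.filter fun v => j v = q).card : ℝ) <
        ∑ _q ∈ Finset.Icc (-Q) Q, (V.card : ℝ) / q0 :=
      Finset.sum_lt_sum_of_nonempty hne' fun q _ => hcon q
    rw [Finset.sum_const, nsmul_eq_mul, hIcc, ← h1] at h3
    have h4 : q0 * ((V.card : ℝ) / q0) = V.card := by field_simp
    rw [h4] at h3
    exact lt_irrefl _ h3
  refine ⟨(q : ℝ) * μ, ?_⟩
  intro T hT K L hK1 hL1 Z hZ hfam
  have hVq : (0 : ℝ) < ((V.filter fun v => j v = q).card : ℝ) :=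
    lt_of_lt_of_le (by positivity) hq
  have hVqne : (V.filter fun v => j v = q).Nonempty := by
    rw [← Finset.card_pos]; exact_mod_cast hVq
  have key := hslab δ hδ (V.filter fun v => j v = q) hVqne p ((q : ℝ) * μ) T hT
    (fun v hv w hw hne => grid_sep hLpos (Finset.mem_filter.mp hv).1 (Finset.mem_filter.mp hw).1 hne)
    K L hK1 hL1 Z hZ (by
      intro t ht htZ
      obtain ⟨N, hN0, hN1, hN2⟩ := hfam t ht htZ
      refine ⟨N, hN0, hN1, hN2.mono ?_ le_rfl⟩
      rintro _ ⟨v, hv, rfl⟩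
      rw [Finset.mem_coe, Finset.mem_filter] at hv
      refine ⟨v, ⟨fun i => grid_mem hLpos hv.1 i, ?_⟩, rfl⟩
      have h1 : b v / μ ≤ q := by rw [← hv.2]; exact Int.le_ceil _
      have h2 : (q : ℝ) < b v / μ + 1 := by rw [← hv.2]; exact Int.ceil_lt_add_one _
      rw [div_le_iff₀ hμpos] at h1
      have h3 : (q : ℝ) * μ < b v + μ := by
        have := mul_lt_mul_of_pos_right h2 hμpos
        rwa [add_mul, one_mul, div_mul_cancel₀ _ hμpos.ne'] at this
      have hlam' : lam = 2 * μ := by rw [hμ]; ring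
      constructor
      · linarith [ht.1]
      · linarith [ht.2])
  refine le_trans ?_ (key.trans (measure_mono Set.inter_subset_left))
  apply ENNReal.ofReal_le_ofReal
  have h2 : (η / 2) ^ ((d : ℝ) * θ) * δ ^ (-((d : ℝ) * θ)) ≤ (V.card : ℝ) ^ θ := by
    have h3 := Real.rpow_le_rpow (by positivity) hVcard hθ0.le
    refine le_trans (le_of_eq ?_) h3
    rw [← Real.rpow_natCast, ← Real.rpow_mul (by positivity), hLg,
      show (1 / (2 * δ / η)) = (η / 2) * δ⁻¹ by field_simp,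
      Real.mul_rpow (by positivity) (by positivity), Real.inv_rpow hδ.le, Real.rpow_neg hδ.le]
  have h3 : (V.card : ℝ) ^ θ / q0 ^ θ ≤ ((V.filter fun v => j v = q).card : ℝ) ^ θ := by
    rw [← Real.div_rpow hVpos.le hq0pos.le]
    exact Real.rpow_le_rpow (by positivity) hq hθ0.le
  have h4 : (d : ℝ) / (S.card + 1) = d + -((d : ℝ) * θ) := by
    rw [hθ]
    field_simp
    ring
  calc κ * (η / 2) ^ ((d : ℝ) * θ) / q0 ^ θ * ((K * L) ^ m)⁻¹ * δ ^ ((d : ℝ) / (S.card + 1))
      = κ * ((K * L) ^ m)⁻¹ * δ ^ d *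
          (((η / 2) ^ ((d : ℝ) * θ) * δ ^ (-((d : ℝ) * θ))) / q0 ^ θ) := by
        rw [h4, Real.rpow_add hδ, Real.rpow_natCast]; ring
    _ ≤ κ * ((K * L) ^ m)⁻¹ * δ ^ d * ((V.card : ℝ) ^ θ / q0 ^ θ) := by gcongr
    _ ≤ _ := by gcongr

/-- one scale: the slices of `K` in one slab are covered by structured sets which are not much
larger than the slices of `F` -/
theorem vol_loc (S : Finset ℚ) (hS : (-1 : ℚ) ∉ S) (hne : S.Nonempty) (d : ℕ) :
    ∃ m : ℕ, ∃ κ μ : ℝ, 0 < κ ∧ 0 < μ ∧ ∀ K : Set (EuclideanSpace ℝ (Fin (d + 1))),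
      Bornology.IsBounded K → HasSegments K → ∃ c : ℝ, 0 < c ∧ ∀ δ : ℝ, 0 < δ → ∃ a : ℝ,
      ∀ F : Set (EuclideanSpace ℝ (Fin (d + 1))), Bornology.IsBounded F →
      ∀ M : ℝ, 1 ≤ M → ∀ Z : Set ℝ, volume Z ≤ ENNReal.ofReal κ →
      (∀ t ∈ Set.Ico a (a + μ), t ∉ Z → ∃ D : Set (Fin d → ℝ), Bornology.IsBounded D ∧
        sl K t ⊆ D ∧ ((cells δ (D + D)).ncard : ℝ) ≤ M * (cells δ D).ncard ∧
        ((cells δ D).ncard : ℝ) ≤ M * (cells δ (sl F t)).ncard) →
      ENNReal.ofReal (c * (M ^ m)⁻¹ * δ ^ ((d : ℝ) / (S.card + 1))) ≤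
        volume (Metric.thickening ((d + 1) * δ) F) := by
  classical
  obtain ⟨m, κ, μ, hκ, hμ, hkak⟩ := kak_loc S hS hne d (1 / (d + 1)) (by positivity)
  refine ⟨m, κ, μ, hκ, hμ, ?_⟩
  intro K hKb hK
  obtain ⟨R, hR⟩ := hKb.subset_closedBall 0
  obtain ⟨c, hc, hkak'⟩ := hkak (|R| + 1) (by positivity)
  refine ⟨c, hc, ?_⟩
  intro δ hδpos
  have hd1 : (0 : ℝ) < (d : ℝ) + 1 := by positivity
  set r : ℝ := (d + 1) * δ with hr'
  have hr : 0 < r := by positivity
  -- the vector `(1, v)`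
  set w : (Fin d → ℝ) → EuclideanSpace ℝ (Fin (d + 1)) := fun v => WithLp.toLp 2 (Fin.cons 1 v)
    with hw
  have hw0 : ∀ v, (w v) 0 = 1 := fun v => rfl
  have hws : ∀ v i, (w v) (Fin.succ i) = v i := fun v i => rfl
  have hnorm1 : ∀ v, 1 ≤ ‖w v‖ := by
    intro v
    have := PiLp.norm_apply_le (w v) 0
    rw [hw0] at this
    simpa using this
  have hex : ∀ v : Fin d → ℝ, ∃ a : EuclideanSpace ℝ (Fin (d + 1)),
      ∀ t ∈ Set.Icc (0 : ℝ) 1, a + t • (‖w v‖⁻¹ • w v) ∈ K := by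
    intro v
    apply hK
    rw [norm_smul, norm_inv, norm_norm]
    exact inv_mul_cancel₀ (by have := hnorm1 v; positivity)
  choose a ha using hex
  have hb : ∀ v, |a v 0| ≤ |R| + 1 := by
    intro v
    have h1 := ha v 0 ⟨le_rfl, zero_le_one⟩
    rw [zero_smul, add_zero] at h1
    have h2 := hR h1
    rw [mem_closedBall_zero_iff] at h2
    have h3 := PiLp.norm_apply_le (a v) 0
    rw [Real.norm_eq_abs] at h3
    linarith [le_abs_self R]
  -- positions lie in the slices
  have hpos : ∀ t : ℝ, ((fun v : Fin d → ℝ => fun i => (a v (Fin.succ i) - a v 0 * v i) + t * v i) ''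
      {v : Fin d → ℝ | (∀ i, 0 ≤ v i ∧ v i ≤ 1) ∧ t ∈ Set.Icc (a v 0) (a v 0 + 1 / (d + 1))}) ⊆
      sl K t := by
    rintro t _ ⟨v, ⟨hv, ht⟩, rfl⟩
    have hnle : ‖w v‖ ≤ d + 1 := by
      rw [EuclideanSpace.norm_eq]
      apply Real.sqrt_le_iff.mpr
      refine ⟨by positivity, ?_⟩
      rw [Fin.sum_univ_succ]
      have h1 : ∑ i : Fin d, ‖(w v) (Fin.succ i)‖ ^ 2 ≤ ∑ _i : Fin d, (1 : ℝ) := by
        refine Finset.sum_le_sum fun i _ => ?_
        rw [hws, Real.norm_eq_abs, sq_abs]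
        have := hv i
        nlinarith
      rw [Finset.sum_const, Finset.card_univ, Fintype.card_fin, nsmul_eq_mul, mul_one] at h1
      rw [hw0]
      have hdnn : (0 : ℝ) ≤ d := Nat.cast_nonneg d
      simp only [norm_one, one_pow]
      nlinarith
    have h2 := ha v ((t - a v 0) * ‖w v‖) ⟨by
        have := ht.1
        have := hnorm1 v
        exact mul_nonneg (by linarith) (by linarith), by
        have h3 : t - a v 0 ≤ 1 / (d + 1) := by linarith [ht.2]
        calc (t - a v 0) * ‖w v‖ ≤ 1 / (d + 1) * (d + 1) := by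
              apply mul_le_mul h3 hnle (norm_nonneg _) (by positivity)
          _ = 1 := by field_simp⟩
    rw [smul_smul, mul_assoc, mul_inv_cancel₀ (by have := hnorm1 v; positivity), mul_one] at h2
    have e : (WithLp.toLp 2 (Fin.cons t (fun i => (a v (Fin.succ i) - a v 0 * v i) + t * v i) :
        Fin (d + 1) → ℝ) : EuclideanSpace ℝ (Fin (d + 1))) = a v + (t - a v 0) • w v := by
      ext i
      refine Fin.cases ?_ (fun i => ?_) i
      · simp only [PiLp.add_apply, PiLp.smul_apply, smul_eq_mul, hw0, Fin.cons_zero]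
        ring
      · simp only [PiLp.add_apply, PiLp.smul_apply, smul_eq_mul, hws, Fin.cons_succ]
        ring
    show WithLp.toLp 2 _ ∈ K
    rw [e]
    exact h2
  obtain ⟨a₀, hkak''⟩ := hkak' δ hδpos (fun v i => a v (Fin.succ i) - a v 0 * v i)
    (fun v => a v 0) hb
  refine ⟨a₀, ?_⟩
  intro F hFb M hM Z hZ hcov
  -- the thickening contains the neighbourhoods of the slices
  have hT : ∀ (t : ℝ) (x : Fin d → ℝ), x ∈ sl F t → ∀ y : Fin d → ℝ, (∀ i, |y i - x i| ≤ δ) →
      (t, y) ∈ (eqv d).symm ⁻¹' Metric.thickening r F := by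
    intro t x hx y hy
    rw [Set.mem_preimage, eqv_symm, Metric.mem_thickening_iff]
    refine ⟨WithLp.toLp 2 (Fin.cons t x), hx, ?_⟩
    rw [EuclideanSpace.dist_eq, Fin.sum_univ_succ]
    have hsum : ∑ i : Fin d, dist (y i) (x i) ^ 2 ≤ d * δ ^ 2 := by
      calc _ ≤ ∑ _i : Fin d, δ ^ 2 := by
            refine Finset.sum_le_sum fun i _ => ?_
            have := hy i
            rw [Real.dist_eq]
            exact pow_le_pow_left₀ (abs_nonneg _) this 2
        _ = d * δ ^ 2 := by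
          rw [Finset.sum_const, Finset.card_univ, Fintype.card_fin, nsmul_eq_mul]
    have hlt : (d : ℝ) * δ ^ 2 < r ^ 2 := by
      rw [hr', mul_pow]
      have hdnn : (0 : ℝ) ≤ d := Nat.cast_nonneg d
      apply mul_lt_mul_of_pos_right _ (by positivity)
      nlinarith
    calc _ ≤ √((d : ℝ) * δ ^ 2) := by
          apply Real.sqrt_le_sqrt
          simp only [Fin.cons_zero, Fin.cons_succ, dist_self]
          linarith
      _ < r := by
          rw [Real.sqrt_lt' hr]
          exact hlt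
  have key := hkak'' ((eqv d).symm ⁻¹' Metric.thickening r F)
    ((eqv d).symm.measurable Metric.isOpen_thickening.measurableSet) M 1 hM le_rfl Z hZ (by
      intro t ht htZ
      obtain ⟨D, hD1, hD2, hD3, hD4⟩ := hcov t ht htZ
      refine ⟨((cells δ (sl F t)).ncard : ℝ), Nat.cast_nonneg _, ?_, ?_⟩
      · -- representatives of the cells
        have hrep : ∀ z : Fin d → ℤ, ∃ x : Fin d → ℝ, z ∈ cells δ (sl F t) →
            x ∈ sl F t ∧ fl δ x = z := by
          intro z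
          by_cases h : z ∈ cells δ (sl F t)
          · obtain ⟨x, hx, hxz⟩ := h
            exact ⟨x, fun _ => ⟨hx, hxz⟩⟩
          · exact ⟨0, fun h' => absurd h' h⟩
        choose f hf using hrep
        have h1 := card_mul_le hδpos (dc δ (sl F t)) f
          (Prod.mk t ⁻¹' ((eqv d).symm ⁻¹' Metric.thickening r F)) (by
            intro z hz y hy
            rw [mem_dc hδpos (sl_bounded hFb t)] at hz
            exact hT t (f z) (hf z hz).1 y hy)
        have h2 : (dc δ (sl F t)).image (fun z => fl δ (f z)) = dc δ (sl F t) := by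
          ext z
          rw [Finset.mem_image]
          constructor
          · rintro ⟨u, hu, rfl⟩
            have hu' := hu
            rw [mem_dc hδpos (sl_bounded hFb t)] at hu'
            rw [(hf u hu').2]
            exact hu
          · intro hz
            have hz' := hz
            rw [mem_dc hδpos (sl_bounded hFb t)] at hz'
            exact ⟨z, hz, (hf z hz').2⟩
        rw [h2, card_dc hδpos (sl_bounded hFb t)] at h1
        rw [ENNReal.ofReal_mul (Nat.cast_nonneg _), ENNReal.ofReal_natCast,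
          ENNReal.ofReal_pow hδpos.le]
        exact h1
      · refine ⟨{D}, by simp, ?_, ?_⟩
        · refine (hpos t).trans (hD2.trans ?_)
          intro x hx
          simp only [Finset.mem_singleton, Set.iUnion_iUnion_eq_left]
          exact hx
        · intro D' hD'
          rw [Finset.mem_singleton] at hD'
          subst hD'
          exact ⟨hD1, hD3, hD4⟩)
  rw [(eqv_mp d).symm.measure_preimage_equiv, mul_one] at key
  exact key

end Pool.Agent.H668.Fib
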