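import Pool.Agent.H668.Fib.Loc
import Pool.Agent.H668.Fib.Count

/-!
# Fibrewise midpoints of a compact set
-/

set_option autoImplicit false

open Finset Set MeasureTheory
open scoped Pointwise ENNReal

namespace Pool.Agent.H668.Fib
open Pool.Agent.W46.KK Pool.Agent.H668.Str

variable {d : ℕ}

/-- the set of the midpoints of two points of `K` of the same height -/
def mid (K : Set (EuclideanSpace ℝ (Fin (d + 1)))) : Set (EuclideanSpace ℝ (Fin (d + 1))) :=
  {x | ∃ y ∈ K, ∃ z ∈ K, y 0 = z 0 ∧ x = (1 / 2 : ℝ) • (y + z)}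

theorem subset_mid (K : Set (EuclideanSpace ℝ (Fin (d + 1)))) : K ⊆ mid K := by
  intro x hx
  refine ⟨x, hx, x, hx, rfl, ?_⟩
  rw [← two_smul ℝ x, smul_smul]
  norm_num

theorem mid_compact {K : Set (EuclideanSpace ℝ (Fin (d + 1)))} (hK : IsCompact K) :
    IsCompact (mid K) := by
  have h1 : IsCompact ((K ×ˢ K) ∩ {q : EuclideanSpace ℝ (Fin (d + 1)) ×
      EuclideanSpace ℝ (Fin (d + 1)) | q.1 0 = q.2 0}) := by
    apply (hK.prod hK).inter_right
    exact isClosed_eq (by fun_prop) (by fun_prop)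
  have h2 := h1.image (f := fun q : EuclideanSpace ℝ (Fin (d + 1)) ×
      EuclideanSpace ℝ (Fin (d + 1)) => (1 / 2 : ℝ) • (q.1 + q.2)) (by fun_prop)
  convert h2 using 1
  ext x
  constructor
  · rintro ⟨y, hy, z, hz, h0, rfl⟩
    exact ⟨(y, z), ⟨⟨hy, hz⟩, h0⟩, rfl⟩
  · rintro ⟨⟨y, z⟩, ⟨⟨hy, hz⟩, h0⟩, rfl⟩
    exact ⟨y, hy, z, hz, h0, rfl⟩

theorem mid_ball {K : Set (EuclideanSpace ℝ (Fin (d + 1)))} {R : ℝ}
    (hK : K ⊆ Metric.closedBall 0 R) : mid K ⊆ Metric.closedBall 0 R := by
  rintro _ ⟨y, hy, z, hz, -, rfl⟩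
  have h1 := hK hy
  have h2 := hK hz
  rw [mem_closedBall_zero_iff] at h1 h2 ⊢
  rw [norm_smul, Real.norm_of_nonneg (by norm_num)]
  have := norm_add_le y z
  linarith

theorem mem_sl (K : Set (EuclideanSpace ℝ (Fin (d + 1)))) (t : ℝ) (x : Fin d → ℝ) :
    x ∈ sl K t ↔ WithLp.toLp 2 (Fin.cons t x : Fin (d + 1) → ℝ) ∈ K := Iff.rfl

theorem mem_sl_mid (K : Set (EuclideanSpace ℝ (Fin (d + 1)))) (t : ℝ) (x : Fin d → ℝ) :
    x ∈ sl (mid K) t ↔ ∃ y ∈ sl K t, ∃ z ∈ sl K t, x = (1 / 2 : ℝ) • (y + z) := by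
  constructor
  · rintro ⟨y, hy, z, hz, h0, hx⟩
    have hy0 : y 0 = t := by
      have h1 := congrArg (fun v : EuclideanSpace ℝ (Fin (d + 1)) => v 0) hx
      simp only [PiLp.smul_apply, PiLp.add_apply, smul_eq_mul, Fin.cons_zero] at h1
      linarith
    refine ⟨fun i => y i.succ, ?_, fun i => z i.succ, ?_, ?_⟩
    · have e : (WithLp.toLp 2 (Fin.cons t (fun i => y (Fin.succ i)) : Fin (d + 1) → ℝ) :
          EuclideanSpace ℝ (Fin (d + 1))) = y := by
        ext i
        refine Fin.cases ?_ (fun i => ?_) i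
        · exact hy0.symm
        · rfl
      rw [mem_sl, e]; exact hy
    · have e : (WithLp.toLp 2 (Fin.cons t (fun i => z (Fin.succ i)) : Fin (d + 1) → ℝ) :
          EuclideanSpace ℝ (Fin (d + 1))) = z := by
        ext i
        refine Fin.cases ?_ (fun i => ?_) i
        · exact (h0 ▸ hy0).symm
        · rfl
      rw [mem_sl, e]; exact hz
    · funext i
      have h1 := congrArg (fun v : EuclideanSpace ℝ (Fin (d + 1)) => v i.succ) hx
      simp only [PiLp.smul_apply, PiLp.add_apply, smul_eq_mul, Fin.cons_succ] at h1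
      simpa using h1
  · rintro ⟨y, hy, z, hz, rfl⟩
    refine ⟨_, hy, _, hz, rfl, ?_⟩
    ext i
    refine Fin.cases ?_ (fun i => ?_) i
    · simp only [PiLp.smul_apply, PiLp.add_apply, smul_eq_mul, Fin.cons_zero]
      ring
    · simp only [PiLp.smul_apply, PiLp.add_apply, smul_eq_mul, Fin.cons_succ, Pi.smul_apply,
        Pi.add_apply]

/-- closed neighbourhoods of the slices -/
def nb (δ : ℝ) (C : Set (EuclideanSpace ℝ (Fin (d + 1)))) : Set (ℝ × (Fin d → ℝ)) :=
  {q | ∃ x ∈ sl C q.1, ∀ i, |q.2 i - x i| ≤ δ}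

theorem nb_measurable {δ : ℝ} {C : Set (EuclideanSpace ℝ (Fin (d + 1)))} (hC : IsCompact C) :
    MeasurableSet (nb δ C) := by
  have h1 : IsCompact (Set.pi Set.univ fun _ : Fin d => Set.Icc (-δ) δ) :=
    isCompact_univ_pi fun _ => isCompact_Icc
  have h2 := (hC.prod h1).image (f := fun q : EuclideanSpace ℝ (Fin (d + 1)) × (Fin d → ℝ) =>
    ((q.1 0, fun i => q.1 (Fin.succ i) + q.2 i) : ℝ × (Fin d → ℝ))) (by fun_prop)
  have h3 : nb δ C = (fun q : EuclideanSpace ℝ (Fin (d + 1)) × (Fin d → ℝ) =>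
    ((q.1 0, fun i => q.1 (Fin.succ i) + q.2 i) : ℝ × (Fin d → ℝ))) ''
      (C ×ˢ (Set.pi Set.univ fun _ : Fin d => Set.Icc (-δ) δ)) := by
    ext ⟨t, y⟩
    constructor
    · rintro ⟨x, hx, hy⟩
      refine ⟨(WithLp.toLp 2 (Fin.cons t x), fun i => y i - x i), ⟨hx, ?_⟩, ?_⟩
      · rw [Set.mem_pi]
        intro i _
        exact abs_le.1 (hy i)
      · refine Prod.ext rfl ?_
        funext i
        simp
    · rintro ⟨⟨c, u⟩, ⟨hc, hu⟩, h⟩
      have ht : c 0 = t := congrArg Prod.fst h
      have hy : ∀ i, c (Fin.succ i) + u i = y i := fun i => congrFun (congrArg Prod.snd h) i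
      refine ⟨fun i => c i.succ, ?_, ?_⟩
      · have e : (WithLp.toLp 2 (Fin.cons t (fun i => c (Fin.succ i)) : Fin (d + 1) → ℝ) :
            EuclideanSpace ℝ (Fin (d + 1))) = c := by
          ext i
          refine Fin.cases ?_ (fun i => ?_) i
          · exact ht.symm
          · rfl
        rw [mem_sl]
        show WithLp.toLp 2 (Fin.cons t _) ∈ C
        rw [e]; exact hc
      · intro i
        rw [Set.mem_pi] at hu
        have h5 : -δ ≤ u i ∧ u i ≤ δ := hu i (Set.mem_univ i)
        show |y i - c (Fin.succ i)| ≤ δ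
        rw [← hy i, add_sub_cancel_left, abs_le]
        exact h5
  rw [h3]
  exact h2.isClosed.measurableSet

/-- the volume of the neighbourhood of a slice -/
noncomputable def G (δ : ℝ) (C : Set (EuclideanSpace ℝ (Fin (d + 1)))) (t : ℝ) : ℝ≥0∞ :=
  volume (Prod.mk t ⁻¹' nb δ C)

theorem G_measurable {δ : ℝ} {C : Set (EuclideanSpace ℝ (Fin (d + 1)))} (hC : IsCompact C) :
    Measurable (G δ C) := measurable_measure_prodMk_left (nb_measurable hC)

theorem G_mono {δ : ℝ} {C C' : Set (EuclideanSpace ℝ (Fin (d + 1)))} (h : C ⊆ C') (t : ℝ) :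
    G δ C t ≤ G δ C' t := by
  apply measure_mono
  rintro y ⟨x, hx, hy⟩
  exact ⟨x, h hx, hy⟩

theorem G_le {δ : ℝ} (hδ1 : δ ≤ 1) {C : Set (EuclideanSpace ℝ (Fin (d + 1)))}
    {R : ℝ} (hR : 0 ≤ R) (hC : C ⊆ Metric.closedBall 0 R) (t : ℝ) :
    G δ C t ≤ ENNReal.ofReal ((2 * R + 2) ^ d) := by
  have h1 : Prod.mk t ⁻¹' nb δ C ⊆ Set.pi Set.univ fun _ : Fin d => Set.Icc (-(R + 1)) (R + 1) := by
    rintro y ⟨x, hx, hy⟩
    rw [Set.mem_pi]
    intro i _
    have h2 := hC hx
    rw [mem_closedBall_zero_iff] at h2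
    have h3 := PiLp.norm_apply_le (WithLp.toLp 2 (Fin.cons t x : Fin (d + 1) → ℝ) :
      EuclideanSpace ℝ (Fin (d + 1))) (Fin.succ i)
    simp only [Fin.cons_succ, Real.norm_eq_abs] at h3
    have h4 := abs_le.1 (h3.trans h2)
    have h5 := abs_le.1 (hy i)
    simp only at h5
    constructor
    · linarith [h4.1, h5.1]
    · linarith [h4.2, h5.2]
  refine (measure_mono h1).trans ?_
  rw [volume_pi_pi]
  simp only [Real.volume_Icc, Finset.prod_const, Finset.card_univ, Fintype.card_fin]
  rw [← ENNReal.ofReal_pow (by linarith)]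
  apply ENNReal.ofReal_le_ofReal
  apply le_of_eq
  congr 1
  ring


theorem sl_finite_rep {δ : ℝ} (X : Set (Fin d → ℝ)) :
    ∃ f : (Fin d → ℤ) → Fin d → ℝ, ∀ z ∈ cells δ X, f z ∈ X ∧ fl δ (f z) = z := by
  have hrep : ∀ z : Fin d → ℤ, ∃ x : Fin d → ℝ, z ∈ cells δ X → x ∈ X ∧ fl δ x = z := by
    intro z
    by_cases h : z ∈ cells δ X
    · obtain ⟨x, hx, hxz⟩ := h
      exact ⟨x, fun _ => ⟨hx, hxz⟩⟩
    · exact ⟨0, fun h' => absurd h' h⟩
  choose f hf using hrep
  exact ⟨f, hf⟩

/-- lower bound by the number of cells -/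
theorem cells_le_G {δ : ℝ} (hδ : 0 < δ) {C : Set (EuclideanSpace ℝ (Fin (d + 1)))}
    (hC : Bornology.IsBounded C) (t : ℝ) :
    ENNReal.ofReal ((cells δ (sl C t)).ncard * δ ^ d) ≤ G δ C t := by
  classical
  obtain ⟨f, hf⟩ := sl_finite_rep (δ := δ) (sl C t)
  have h1 := card_mul_le hδ (dc δ (sl C t)) f (Prod.mk t ⁻¹' nb δ C) (by
    intro z hz y hy
    rw [mem_dc hδ (sl_bounded hC t)] at hz
    exact ⟨f z, (hf z hz).1, hy⟩)
  have h2 : (dc δ (sl C t)).image (fun z => fl δ (f z)) = dc δ (sl C t) := by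
    ext z
    rw [Finset.mem_image]
    constructor
    · rintro ⟨u, hu, rfl⟩
      have hu' := hu
      rw [mem_dc hδ (sl_bounded hC t)] at hu'
      rw [(hf u hu').2]
      exact hu
    · intro hz
      have hz' := hz
      rw [mem_dc hδ (sl_bounded hC t)] at hz'
      exact ⟨z, hz, (hf z hz').2⟩
  rw [h2, card_dc hδ (sl_bounded hC t)] at h1
  rw [ENNReal.ofReal_mul (Nat.cast_nonneg _), ENNReal.ofReal_natCast, ENNReal.ofReal_pow hδ.le]
  exact h1

/-- upper bound by the number of cells -/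
theorem G_le_cells {δ : ℝ} (hδ : 0 < δ) {C : Set (EuclideanSpace ℝ (Fin (d + 1)))}
    (hC : Bornology.IsBounded C) (t : ℝ) :
    G δ C t ≤ ENNReal.ofReal (3 ^ d * (cells δ (sl C t)).ncard * δ ^ d) := by
  classical
  set W := dc δ (sl C t) with hW
  have hsub : Prod.mk t ⁻¹' nb δ C ⊆ ⋃ z ∈ W, Set.pi Set.univ fun i : Fin d =>
      Set.Icc (δ * z i - δ) (δ * z i + 2 * δ) := by
    rintro y ⟨x, hx, hy⟩
    rw [Set.mem_iUnion₂]
    refine ⟨fl δ x, (mem_dc hδ (sl_bounded hC t) _).2 ⟨x, hx, rfl⟩, ?_⟩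
    rw [Set.mem_pi]
    intro i _
    have h1 := Int.floor_le (x i / δ)
    have h2 := Int.lt_floor_add_one (x i / δ)
    rw [le_div_iff₀ hδ] at h1
    rw [div_lt_iff₀ hδ] at h2
    have h3 := abs_le.1 (hy i)
    simp only at h3
    unfold fl
    constructor
    · nlinarith [h3.1]
    · nlinarith [h3.2]
  have hvol : ∀ z : Fin d → ℤ, volume (Set.pi Set.univ fun i : Fin d =>
      Set.Icc (δ * z i - δ) (δ * z i + 2 * δ)) = ENNReal.ofReal ((3 * δ) ^ d) := by
    intro z
    rw [volume_pi_pi]
    have h1 : ∀ i : Fin d, volume (Set.Icc (δ * (z i : ℝ) - δ) (δ * z i + 2 * δ)) =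
        ENNReal.ofReal (3 * δ) := by
      intro i
      rw [Real.volume_Icc]
      congr 1
      ring
    simp only [h1, Finset.prod_const, Finset.card_univ, Fintype.card_fin]
    rw [← ENNReal.ofReal_pow (by positivity)]
  calc G δ C t ≤ volume (⋃ z ∈ W, Set.pi Set.univ fun i : Fin d =>
      Set.Icc (δ * (z i : ℝ) - δ) (δ * z i + 2 * δ)) := measure_mono hsub
    _ ≤ ∑ z ∈ W, volume (Set.pi Set.univ fun i : Fin d =>
      Set.Icc (δ * (z i : ℝ) - δ) (δ * z i + 2 * δ)) := measure_biUnion_finset_le _ _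
    _ = (W.card : ℝ≥0∞) * ENNReal.ofReal ((3 * δ) ^ d) := by
        rw [Finset.sum_congr rfl fun z _ => hvol z, Finset.sum_const, nsmul_eq_mul]
    _ = _ := by
        rw [hW, card_dc hδ (sl_bounded hC t), ← ENNReal.ofReal_natCast,
          ← ENNReal.ofReal_mul (Nat.cast_nonneg _)]
        congr 1
        rw [mul_pow]
        ring

/-- few large steps in a monotone sequence -/
theorem count_steps (g : ℕ → ℝ) (hg : Monotone g) (M : ℝ) (hM : 1 ≤ M) (h0 : 0 ≤ g 0) (I : ℕ) :
    M ^ ((Finset.range I).filter fun i => M * g i < g (i + 1)).card * g 0 ≤ g I := by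
  induction I with
  | zero => simp
  | succ n ih =>
    rw [Finset.range_add_one, Finset.filter_insert]
    have hgn : 0 ≤ g n := h0.trans (hg (Nat.zero_le n))
    by_cases h : M * g n < g (n + 1)
    · rw [if_pos h, Finset.card_insert_of_notMem (by simp), pow_succ]
      calc _ = M * (M ^ ((Finset.range n).filter fun i => M * g i < g (i + 1)).card * g 0) := by ring
        _ ≤ M * g n := by gcongr
        _ ≤ g (n + 1) := h.le
    · rw [if_neg h]
      exact ih.trans (hg (Nat.le_succ n))

/-- one of the iterated midpoint sets has small doubling for most heights -/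
theorem exists_good {K : Set (EuclideanSpace ℝ (Fin (d + 1)))} (hK : IsCompact K) {R : ℝ}
    (hR : 0 ≤ R) (hKR : K ⊆ Metric.closedBall 0 R) {δ : ℝ} (hδ : 0 < δ) (hδ1 : δ ≤ 1) (M : ℝ)
    (hM : 1 ≤ M) (B I : ℕ) (hI : 0 < I) (a μ κ : ℝ) (hκ : 0 < κ)
    (hbig : (2 * R + 2) ^ d < M ^ (B + 1) * δ ^ d) (hBI : B * μ ≤ κ * I) :
    ∃ i < I, ∃ Z : Set ℝ, volume Z ≤ ENNReal.ofReal κ ∧ ∀ t ∈ Set.Ico a (a + μ), t ∉ Z →
      G δ (mid^[i + 1] K) t ≤ ENNReal.ofReal M * G δ (mid^[i] K) t := by
  classical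
  have hcomp : ∀ i, IsCompact (mid^[i] K) := by
    intro i
    induction i with
    | zero => exact hK
    | succ n ih => rw [Function.iterate_succ_apply']; exact mid_compact ih
  have hball : ∀ i, mid^[i] K ⊆ Metric.closedBall 0 R := by
    intro i
    induction i with
    | zero => exact hKR
    | succ n ih => rw [Function.iterate_succ_apply']; exact mid_ball ih
  set Bad : ℕ → Set ℝ := fun i => {t | t ∈ Set.Ico a (a + μ) ∧
    ENNReal.ofReal M * G δ (mid^[i] K) t < G δ (mid^[i + 1] K) t} with hBad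
  have hBadm : ∀ i, MeasurableSet (Bad i) := by
    intro i
    exact measurableSet_Ico.inter
      (measurableSet_lt ((G_measurable (hcomp i)).const_mul _) (G_measurable (hcomp (i + 1))))
  by_contra hcon
  push Not at hcon
  have hbadvol : ∀ i < I, ENNReal.ofReal κ < volume (Bad i) := by
    intro i hi
    by_contra hle
    rw [not_lt] at hle
    obtain ⟨t, ht, htZ, hlt⟩ := hcon i hi (Bad i) hle
    exact htZ ⟨ht, hlt⟩
  -- the number of bad indices at one height
  have hnum : ∀ t, ((Finset.range I).filter fun i => t ∈ Bad i).card ≤ B := by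
    intro t
    have hfin : ∀ i, G δ (mid^[i] K) t ≠ ⊤ := fun i =>
      ne_top_of_le_ne_top ENNReal.ofReal_ne_top (G_le hδ1 hR (hball i) t)
    set g : ℕ → ℝ := fun i => (G δ (mid^[i] K) t).toReal with hg
    have hmono : Monotone g := by
      apply monotone_nat_of_le_succ
      intro i
      apply ENNReal.toReal_mono (hfin _)
      apply G_mono
      rw [Function.iterate_succ_apply']
      exact subset_mid _
    by_cases hne : (sl K t).Nonempty
    · have h0 : δ ^ d ≤ g 0 := by
        have h1 := cells_le_G hδ hK.isBounded t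
        have hf0 : G δ K t ≠ ⊤ := hfin 0
        rw [ENNReal.ofReal_le_iff_le_toReal hf0] at h1
        refine le_trans ?_ h1
        have h2 : (1 : ℝ) ≤ ((cells δ (sl K t)).ncard : ℝ) := by
          have h3 : 0 < (dc δ (sl K t)).card :=
            (dc_nonempty hδ (sl_bounded hK.isBounded t) hne).card_pos
          rw [card_dc hδ (sl_bounded hK.isBounded t)] at h3
          exact_mod_cast h3
        nlinarith [pow_pos hδ d]
      have h1 := count_steps g hmono M hM ((by positivity : (0:ℝ) ≤ δ ^ d).trans h0) I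
      have h2 : g I ≤ (2 * R + 2) ^ d := by
        rw [hg]
        exact ENNReal.toReal_le_of_le_ofReal (by positivity) (G_le hδ1 hR (hball I) t)
      have hsub : ((Finset.range I).filter fun i => t ∈ Bad i) ⊆
          ((Finset.range I).filter fun i => M * g i < g (i + 1)) := by
        intro i hi
        rw [Finset.mem_filter] at hi ⊢
        refine ⟨hi.1, ?_⟩
        have h3 := hi.2.2
        have h4 := (ENNReal.toReal_lt_toReal
          (ENNReal.mul_ne_top ENNReal.ofReal_ne_top (hfin i)) (hfin (i + 1))).2 h3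
        rwa [ENNReal.toReal_mul, ENNReal.toReal_ofReal (by linarith)] at h4
      refine (Finset.card_le_card hsub).trans ?_
      by_contra hlt
      rw [not_le] at hlt
      have h5 : M ^ (B + 1) ≤
          M ^ ((Finset.range I).filter fun i => M * g i < g (i + 1)).card :=
        pow_le_pow_right₀ hM hlt
      have h6 : M ^ (B + 1) * δ ^ d ≤ (2 * R + 2) ^ d := by
        refine le_trans ?_ (h1.trans h2)
        have h7 : (0 : ℝ) ≤ M ^ (B + 1) := by positivity
        calc M ^ (B + 1) * δ ^ d ≤ M ^ (B + 1) * g 0 := by gcongr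
          _ ≤ _ := by
            apply mul_le_mul_of_nonneg_right h5
            exact (by positivity : (0:ℝ) ≤ δ ^ d).trans h0
      linarith
    · have hempty : ∀ i, sl (mid^[i] K) t = ∅ := by
        intro i
        induction i with
        | zero => exact Set.not_nonempty_iff_eq_empty.1 hne
        | succ n ih =>
          rw [Function.iterate_succ_apply', Set.eq_empty_iff_forall_notMem]
          intro x hx
          rw [mem_sl_mid] at hx
          obtain ⟨y, hy, -⟩ := hx
          rw [ih] at hy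
          exact hy
      have hG0 : ∀ i, G δ (mid^[i] K) t = 0 := by
        intro i
        have : Prod.mk t ⁻¹' nb δ (mid^[i] K) = ∅ := by
          rw [Set.eq_empty_iff_forall_notMem]
          rintro y ⟨x, hx, -⟩
          have hx' : x ∈ sl (mid^[i] K) t := hx
          rw [hempty i] at hx'
          exact hx'
        unfold G
        rw [this, measure_empty]
      have : ((Finset.range I).filter fun i => t ∈ Bad i) = ∅ := by
        rw [Finset.filter_eq_empty_iff]
        intro i _ hi
        have h3 := hi.2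
        rw [hG0, hG0] at h3
        simp at h3
      rw [this, Finset.card_empty]
      exact Nat.zero_le _
  -- integrate
  have hsum : ∑ i ∈ Finset.range I, volume (Bad i) ≤ (B : ℝ≥0∞) * ENNReal.ofReal μ := by
    calc ∑ i ∈ Finset.range I, volume (Bad i)
        = ∑ i ∈ Finset.range I, ∫⁻ t, (Bad i).indicator 1 t := by
          refine Finset.sum_congr rfl fun i _ => ?_
          rw [lintegral_indicator_one (hBadm i)]
      _ = ∫⁻ t, ∑ i ∈ Finset.range I, (Bad i).indicator 1 t := by
          rw [lintegral_finsetSum]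
          exact fun i _ => measurable_one.indicator (hBadm i)
      _ ≤ ∫⁻ t, (Set.Ico a (a + μ)).indicator (fun _ => (B : ℝ≥0∞)) t := by
          apply lintegral_mono
          intro t
          by_cases ht : t ∈ Set.Ico a (a + μ)
          · rw [Set.indicator_of_mem ht]
            have h1 : ∑ i ∈ Finset.range I, (Bad i).indicator (1 : ℝ → ℝ≥0∞) t =
                (((Finset.range I).filter fun i => t ∈ Bad i).card : ℝ≥0∞) := by
              rw [Finset.card_filter]
              push_cast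
              refine Finset.sum_congr rfl fun i _ => ?_
              by_cases h : t ∈ Bad i
              · rw [Set.indicator_of_mem h, if_pos h]; rfl
              · rw [Set.indicator_of_notMem h, if_neg h]
            dsimp only
            rw [h1]
            exact_mod_cast hnum t
          · rw [Set.indicator_of_notMem ht]
            apply le_of_eq
            apply Finset.sum_eq_zero
            intro i _
            rw [Set.indicator_of_notMem]
            exact fun h => ht h.1
      _ = (B : ℝ≥0∞) * ENNReal.ofReal μ := by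
          rw [lintegral_indicator_const measurableSet_Ico, Real.volume_Ico]
          congr 2
          ring
  have hlt : ∑ i ∈ Finset.range I, ENNReal.ofReal κ < ∑ i ∈ Finset.range I, volume (Bad i) := by
    apply ENNReal.sum_lt_sum_of_nonempty
    · exact ⟨0, Finset.mem_range.2 hI⟩
    · intro i hi
      exact hbadvol i (Finset.mem_range.1 hi)
  have hfinal := hlt.trans_le hsum
  rw [Finset.sum_const, Finset.card_range, nsmul_eq_mul, ← ENNReal.ofReal_natCast,
    ← ENNReal.ofReal_natCast, ← ENNReal.ofReal_mul (Nat.cast_nonneg _),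
    ← ENNReal.ofReal_mul (Nat.cast_nonneg _)] at hfinal
  have h9 := ENNReal.ofReal_lt_ofReal_iff_of_nonneg (by positivity) |>.1 hfinal
  linarith [mul_comm κ (I : ℝ)]

end Pool.Agent.H668.Fib
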