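import Pool.Agent.H668.Fib.Lines
import Pool.Agent.H668.Fib.Final
import Pool.Agent.H668.Ene.Tubes

/-!
# Fibre sums of unions of tubes
-/

set_option autoImplicit false

open Finset Set MeasureTheory
open scoped Pointwise ENNReal

namespace Pool.Agent.H668.Fib
open Pool.Agent.W46.KK Pool.Agent.H668.Str Pool.Agent.H668.Ene

variable {d : ℕ}

theorem tube_mem {c₀ δ s : ℝ} (hc₀ : 0 < c₀) (hδ1 : δ < 1) (hs : 0 < s)
    (hδs : δ = 4 * ((d : ℝ) + 1) * s) (a e : EuclideanSpace ℝ (Fin (d + 1))) (he : ‖e‖ = 1)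
    (he0 : c₀ ≤ e 0) (t : ℝ) (ht : t ∈ Set.Icc (a 0 - c₀ / 4) (a 0 - c₀ / 4 + c₀ / 2))
    (y : Fin d → ℝ) (hy : ∀ k, |y k - (foot a e k + t * Pool.Agent.H668.Ene.slope e k)| ≤ s) :
    WithLp.toLp 2 (Fin.cons t y : Fin (d + 1) → ℝ) ∈ tube δ a e := by
  have he0pos : 0 < e 0 := lt_of_lt_of_le hc₀ he0
  have hd0 : (0 : ℝ) ≤ d := Nat.cast_nonneg d
  apply near_axis a e _ he ((t - a 0) / e 0) (((d : ℝ) + 1) * s)
  · have h1 : |(t - a 0) / e 0| ≤ 1 / 4 := by
      rw [abs_div, abs_of_pos he0pos, div_le_iff₀ he0pos]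
      have h2 : |t - a 0| ≤ c₀ / 4 := by
        rw [abs_le]; constructor <;> linarith [ht.1, ht.2]
      linarith [he0]
    have h3 : ((d : ℝ) + 1) * s ≤ 1 / 4 := by
      have : ((d : ℝ) + 1) * s = δ / 4 := by rw [hδs]; ring
      rw [this]; linarith
    linarith
  · have : ((d : ℝ) + 1) * s = δ / 4 := by rw [hδs]; ring
    have h4 : 0 < ((d : ℝ) + 1) * s := by positivity
    rw [this] at h4 ⊢
    linarith
  · rw [EuclideanSpace.norm_eq]
    apply Real.sqrt_le_iff.mpr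
    refine ⟨by positivity, ?_⟩
    rw [Fin.sum_univ_succ]
    have h0 : ((WithLp.toLp 2 (Fin.cons t y : Fin (d + 1) → ℝ) : EuclideanSpace ℝ (Fin (d + 1))) -
        (a + ((t - a 0) / e 0) • e)) 0 = 0 := by
      simp only [PiLp.sub_apply, PiLp.add_apply, PiLp.smul_apply, smul_eq_mul, Fin.cons_zero]
      rw [div_mul_cancel₀ _ he0pos.ne']
      ring
    have h1 : ∀ k : Fin d, ((WithLp.toLp 2 (Fin.cons t y : Fin (d + 1) → ℝ) :
        EuclideanSpace ℝ (Fin (d + 1))) - (a + ((t - a 0) / e 0) • e)) k.succ =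
        y k - (foot a e k + t * Pool.Agent.H668.Ene.slope e k) := by
      intro k
      simp only [PiLp.sub_apply, PiLp.add_apply, PiLp.smul_apply, smul_eq_mul, Fin.cons_succ,
        foot, Pool.Agent.H668.Ene.slope]
      have := he0pos.ne'
      field_simp
      ring
    rw [h0]
    simp only [h1, norm_zero]
    have h2 : ∑ k : Fin d, ‖y k - (foot a e k + t * Pool.Agent.H668.Ene.slope e k)‖ ^ 2 ≤
        ∑ _k : Fin d, s ^ 2 := by
      refine Finset.sum_le_sum fun k _ => ?_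
      rw [Real.norm_eq_abs]
      exact pow_le_pow_left₀ (abs_nonneg _) (hy k) 2
    rw [Finset.sum_const, Finset.card_univ, Fintype.card_fin, nsmul_eq_mul] at h2
    nlinarith [sq_nonneg s]

theorem tubes_fib (d : ℕ) (c₀ : ℝ) (hc₀ : 0 < c₀) (η : ℝ) (hη : 0 < η) :
    ∃ N : ℕ, 0 < N ∧ ∀ k : ℕ, N ≤ k → ∀ Λ : ℝ, 0 < Λ → ∃ c : ℝ, 0 < c ∧
      ∀ (δ : ℝ), 0 < δ → δ < 1 → ∀ (ι : Type) [Fintype ι]
      (a e : ι → EuclideanSpace ℝ (Fin (d + 1))), (∀ i, ‖e i‖ = 1) → (∀ i, c₀ ≤ e i 0) →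
      (∀ i, ‖a i‖ ≤ 1) → (∀ i j, i ≠ j → δ ≤ ‖e i - e j‖) →
      ∀ L : Fin k → (Fin d → ℝ) ≃ₗ[ℝ] (Fin d → ℝ),
      (∀ j x, ‖L j x‖ ≤ Λ * ‖x‖) → (∀ j x, ‖x‖ ≤ Λ * ‖L j x‖) →
      ENNReal.ofReal (c * δ ^ η * (δ ^ d * (Fintype.card ι : ℝ))) ≤
        volume (fibSum L (⋃ i, tube δ (a i) (e i))) := by
  classical
  have hd1 : (0 : ℝ) < (d : ℝ) + 1 := by positivity
  have hd0 : (0 : ℝ) ≤ d := Nat.cast_nonneg d
  set H : ℝ := 1 / c₀ + 1 + c₀ with hH
  have hHpos : 0 < H := by positivity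
  obtain ⟨N, hN0, hN⟩ := fib_lines d (c₀ / 2) (by positivity) H hHpos η hη
  refine ⟨N, hN0, ?_⟩
  intro k hk Λ hΛ
  have hk0 : 0 < k := by omega
  set Λ' : ℕ := ⌈Λ⌉₊ with hΛ'
  have hΛΛ' : Λ ≤ Λ' := Nat.le_ceil Λ
  have hΛ'0 : 0 < Λ' := Nat.ceil_pos.2 hΛ
  have hΛ'r : (0 : ℝ) < Λ' := by exact_mod_cast hΛ'0
  obtain ⟨c, hc, hvol⟩ := hN k hk Λ' hΛ'0
  set θ : ℝ := 1 / (4 * ((d : ℝ) + 1)) with hθ
  have hθpos : 0 < θ := by positivity
  refine ⟨c * θ ^ η * θ ^ d, by positivity, ?_⟩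
  intro δ hδ hδ1 ι _ a e he he0 ha0 hsep L hL1 hL2
  set s : ℝ := θ * δ with hs
  have hspos : 0 < s := by positivity
  have hθ1 : θ ≤ 1 := by
    rw [hθ, div_le_one (by positivity)]; linarith
  have hsδ : s ≤ δ := by rw [hs]; nlinarith
  have hs1 : s ≤ 1 := by linarith
  have hδs : δ = 4 * ((d : ℝ) + 1) * s := by rw [hs, hθ]; field_simp
  have he0pos : ∀ i, 0 < e i 0 := fun i => lt_of_lt_of_le hc₀ (he0 i)
  have hslope : ∀ i k, |Pool.Agent.H668.Ene.slope (e i) k| ≤ 1 / c₀ := by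
    intro i k
    unfold Pool.Agent.H668.Ene.slope
    have h1 := PiLp.norm_apply_le (e i) k.succ
    rw [he i, Real.norm_eq_abs] at h1
    rw [abs_div, abs_of_pos (he0pos i), div_le_div_iff₀ (he0pos i) hc₀]
    have := he0 i
    nlinarith [abs_nonneg (e i k.succ)]
  have hcoord : ∀ i k, |a i k| ≤ 1 := by
    intro i k
    have h1 := PiLp.norm_apply_le (a i) k
    rw [Real.norm_eq_abs] at h1
    exact h1.trans (ha0 i)
  set F := fibSum L (⋃ i, tube δ (a i) (e i)) with hF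
  have key := hvol s hspos hs1 ι Finset.univ (fun i => Pool.Agent.H668.Ene.slope (e i)) (fun i => foot (a i) (e i))
    (fun i => a i 0 - c₀ / 4) ?_ ?_ ?_ ?_ L ?_ ?_
    (toMeasurable volume ((eqv d).symm ⁻¹' F)) (measurableSet_toMeasurable _ _) ?_
  · rw [measure_toMeasurable, (eqv_mp d).symm.measure_preimage_equiv, Finset.card_univ] at key
    refine le_trans (ENNReal.ofReal_le_ofReal (le_of_eq ?_)) key
    rw [hs, Real.mul_rpow hθpos.le hδ.le, mul_pow]
    ring
  · -- separation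
    intro i _ j _ hij h
    have hsgn : 0 < e i 0 * e j 0 := mul_pos (he0pos i) (he0pos j)
    obtain ⟨k, hk⟩ := slope_sep hδ 0 (e i) (e j) (he i) (he j) hsgn (hsep i j hij)
    rw [Fin.succAbove_zero] at hk
    have h1 : ⌊Pool.Agent.H668.Ene.slope (e i) k / s⌋ = ⌊Pool.Agent.H668.Ene.slope (e j) k / s⌋ := congrFun h k
    have h2 : δ / (2 * (d + 1)) = 2 * s := by rw [hδs]; field_simp; ring
    rw [h2] at hk
    have h3 : 2 * s ≤ |Pool.Agent.H668.Ene.slope (e i) k - Pool.Agent.H668.Ene.slope (e j) k| := hk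
    have a1 := Int.floor_le (Pool.Agent.H668.Ene.slope (e i) k / s)
    have a2 := Int.lt_floor_add_one (Pool.Agent.H668.Ene.slope (e i) k / s)
    have b1 := Int.floor_le (Pool.Agent.H668.Ene.slope (e j) k / s)
    have b2 := Int.lt_floor_add_one (Pool.Agent.H668.Ene.slope (e j) k / s)
    rw [h1] at a1 a2
    have h4 : |Pool.Agent.H668.Ene.slope (e i) k / s - Pool.Agent.H668.Ene.slope (e j) k / s| < 1 := by
      rw [abs_lt]; constructor <;> linarith
    rw [← sub_div, abs_div, abs_of_pos hspos, div_lt_one hspos] at h4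
    linarith
  · -- slopes are bounded
    intro i _ k
    refine (hslope i k).trans ?_
    rw [hH]; linarith
  · -- feet are bounded
    intro i _ k
    have h1 : foot (a i) (e i) k = a i k.succ - a i 0 * Pool.Agent.H668.Ene.slope (e i) k := rfl
    rw [h1]
    refine (abs_sub _ _).trans ?_
    rw [abs_mul]
    have h2 := mul_le_mul (hcoord i 0) (hslope i k) (abs_nonneg _) zero_le_one
    have h3 := hcoord i k.succ
    rw [hH]; linarith
  · -- heights are bounded
    intro i _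
    have h1 := abs_le.1 (hcoord i 0)
    have h2 : 0 < 1 / c₀ := by positivity
    rw [abs_le]
    constructor
    · rw [hH]; linarith [h1.1]
    · rw [hH]; linarith [h1.2]
  · intro j x
    exact (hL1 j x).trans (by gcongr)
  · intro j x
    exact (hL2 j x).trans (by gcongr)
  · -- the fibre sum contains the neighbourhoods
    intro t x hx y hy
    apply subset_toMeasurable
    rw [Set.mem_preimage, eqv_symm]
    set j₀ : Fin k := ⟨0, hk0⟩ with hj₀
    set u : Fin d → ℝ := (L j₀).symm (fun l => y l - ∑ j, L j (x j) l) with hu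
    have hLu : L j₀ u = fun l => y l - ∑ j, L j (x j) l := by rw [hu]; simp
    have hun : ‖u‖ ≤ s := by
      have h1 := hL2 j₀ u
      have h2 : ‖L j₀ u‖ ≤ s / Λ' := by
        rw [hLu, pi_norm_le_iff_of_nonneg (by positivity)]
        exact hy
      calc ‖u‖ ≤ Λ * ‖L j₀ u‖ := h1
        _ ≤ Λ' * (s / Λ') := by gcongr
        _ = s := by field_simp
    have hmem : ∀ j, ∀ w : Fin d → ℝ, ‖w‖ ≤ s →
        x j + w ∈ sl (⋃ i, tube δ (a i) (e i)) t := by
      intro j w hw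
      obtain ⟨i, -, hti, hxi⟩ := (mem_sl_segs _ _ _ _ _ _ _).1 (hx j)
      rw [mem_sl, Set.mem_iUnion]
      refine ⟨i, tube_mem hc₀ hδ1 hspos hδs (a i) (e i) (he i) (he0 i) t hti _ ?_⟩
      intro l
      have h1 := norm_le_pi_norm w l
      rw [Real.norm_eq_abs] at h1
      have h2 : (x j + w) l - (foot (a i) (e i) l + t * Pool.Agent.H668.Ene.slope (e i) l) = w l := by
        rw [Pi.add_apply, hxi]
        ring
      rw [h2]
      exact h1.trans hw
    refine ⟨fun j => if j = j₀ then x j + u else x j, ?_, ?_⟩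
    · intro j
      dsimp only
      by_cases h : j = j₀
      · rw [if_pos h]
        exact hmem j u hun
      · rw [if_neg h]
        have := hmem j 0 (by rw [norm_zero]; exact hspos.le)
        rwa [add_zero] at this
    · intro l
      simp only [Fin.cons_succ]
      have h1 : ∀ j, L j (if j = j₀ then x j + u else x j) l =
          L j (x j) l + if j = j₀ then L j₀ u l else 0 := by
        intro j
        by_cases h : j = j₀
        · rw [if_pos h, if_pos h, h, map_add, Pi.add_apply]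
        · rw [if_neg h, if_neg h, add_zero]
      rw [Finset.sum_congr rfl fun j _ => h1 j, Finset.sum_add_distrib, Finset.sum_ite_eq' _ j₀,
        if_pos (Finset.mem_univ _), hLu]
      ring

end Pool.Agent.H668.Fib
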